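import Pool.Agent.Helper7.CogP.PSpace

/-!
PSPACE-hardness of the Maker-Breaker domination numbers of cographs.
-/

set_option autoImplicit false

namespace Pool.Agent.Helper7.CogP

open Pool.Agent.Helper7.Cog Pool.Agent.Helper86 Pool.Agent.Helper87.Alg Turing Computability

/-- The language `L` has a polynomial time many-one reduction to the decision problem `A` on
instances `α`, encoded as strings by `enc`, that produces only instances in `P`. -/
def ReducesTo {α : Type} (L : Set (List Bool)) (enc : Encoding α Bool) (P A : Set α) : Prop :=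
  ∃ f : List Bool → α,
    Nonempty (TM2ComputableInPolyTime (encodingList Bool).encode enc.encode f) ∧
    (∀ x, f x ∈ P) ∧ ∀ x, x ∈ L ↔ f x ∈ A

theorem qtrue_nil (φ : List (List (Bool × ℕ))) : QTrue ([], φ) ↔ PT.Sat φ := by
  constructor
  · rintro ⟨μ, -, h⟩
    exact ⟨μ, h⟩
  · rintro ⟨μ, h⟩
    exact ⟨μ, fun j hj => absurd hj (Nat.not_lt_zero j), h⟩

/-- Every problem in NP or PSPACE reduces to the truth of quantified formulas. -/
theorem to_qbf {L : Set (List Bool)} (hL : NP.InNP L ∨ InPSPACE L) :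
    ∃ Φ : List Bool → QBF, PT.Poly Φ ∧ ∀ x, x ∈ L ↔ QTrue (Φ x) := by
  rcases hL with hL | hL
  · obtain ⟨Φ, h1, h2⟩ := NP.cook_levin hL
    exact ⟨fun x => ([], Φ x), PT.Poly.pair (PT.Poly.const []) h1,
      fun x => (h2 x).trans (qtrue_nil _).symm⟩
  · exact qbf_hard hL

theorem reduces_of_qbf {α : Type} (enc : Encoding α Bool) (P A : Set α)
    (f : QBF → α) (F : QBF → List Bool) (hF : PT.Poly F)
    (hFf : ∀ φ, F φ = enc.encode (f φ)) (hP : ∀ φ, f φ ∈ P) (hA : ∀ φ, QTrue φ ↔ f φ ∈ A)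
    (L : Set (List Bool)) (hL : NP.InNP L ∨ InPSPACE L) : ReducesTo L enc P A := by
  obtain ⟨Φ, hΦ, hΦ'⟩ := to_qbf hL
  refine ⟨fun x => f (Φ x), ?_, fun x => hP _, fun x => (hΦ' x).trans (hA _)⟩
  exact PT.Poly.toTM2 (F := fun x => F (Φ x)) (hF.comp hΦ) (fun x => hFf (Φ x))

theorem inP_of_qbf {P : Set Graph} {g : Graph → ℕ∞} (h : PolyTimeOn P g)
    (F : QBF → List L) (k : QBF → ℕ) (hF : PT.Poly F)
    (hk : PT.Poly k) (hFP : ∀ φ, fgr (F φ) ∈ P)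
    (hP : ∀ φ, QTrue φ ↔ (k φ : ℕ∞) ≤ g (fgr (F φ)))
    (L : Set (List Bool)) (hL : NP.InNP L ∨ InPSPACE L) : InP L := by
  obtain ⟨h⟩ := h
  obtain ⟨A, hA, hA'⟩ := Pool.Agent.Helper87.OfTM2.poly_of_TM2 h
  obtain ⟨Φ, hΦ, hΦ'⟩ := to_qbf hL
  set V : List Bool → Bool := fun x => atLeast (k (Φ x)) (A (gstring (F (Φ x)))) with hV
  have hVp : PT.Poly V :=
    poly_atLeast (hk.comp hΦ) (hA.comp (poly_gstring (hF.comp hΦ)))
  refine ⟨V, ?_, fun x => ?_⟩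
  · refine PT.Poly.toTM2 (F := fun x => [V x]) (PT.Poly.cons hVp (PT.Poly.const [])) (fun x => ?_)
    rfl
  · rw [hΦ', hP, hV]
    show _ ↔ atLeast (k (Φ x)) (A (gstring (F (Φ x)))) = true
    have h1 : A (gstring (F (Φ x))) = valueBits (g (fgr (F (Φ x)))) := by
      rw [← bits_fgr]
      exact hA' ⟨_, hFP (Φ x)⟩
    rw [h1, atLeast_iff]

theorem red_S (L : Set (List Bool)) (hL : NP.InNP L ∨ InPSPACE L) :
    ReducesTo L instEnc {I | Small I.G ∧ gammaMBS I.G ≠ ⊤} {I | (I.k : ℕ∞) ≤ gammaMBS I.G} :=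
  reduces_of_qbf instEnc _ _ (fun φ => finst (QF φ) (kQ φ))
    (fun φ => istring (QF φ) (kQ φ)) (poly_istring poly_QF poly_kQ)
    (fun φ => (bits_finst _ _).symm)
    (fun φ => (⟨small_gr _, finite_QS φ⟩ : Small (gr (QF φ)) ∧ gammaMBS (gr (QF φ)) ≠ ⊤))
    (fun φ => qtrue_iff_S φ) L hL

theorem red_D (L : Set (List Bool)) (hL : NP.InNP L ∨ InPSPACE L) :
    ReducesTo L instEnc {I | Small I.G ∧ gammaMB I.G ≠ ⊤} {I | (I.k : ℕ∞) ≤ gammaMB I.G} :=
  reduces_of_qbf instEnc _ _ (fun φ => finst (QFD φ) (kQD φ))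
    (fun φ => istring (QFD φ) (kQD φ)) (poly_istring poly_QFD poly_kQD)
    (fun φ => (bits_finst _ _).symm)
    (fun φ => (⟨small_gr _, finite_QD φ⟩ : Small (gr (QFD φ)) ∧ gammaMB (gr (QFD φ)) ≠ ⊤))
    (fun φ => qtrue_iff_D φ) L hL

theorem algQ_S (h : PolyTimeOn {G | Small G.2 ∧ gammaMBS G.2 ≠ ⊤} (fun G => gammaMBS G.2))
    (L : Set (List Bool)) (hL : NP.InNP L ∨ InPSPACE L) : InP L :=
  inP_of_qbf h QF kQ poly_QF poly_kQ (fun φ => ⟨small_gr _, finite_QS φ⟩) qtrue_iff_S L hL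

theorem algQ_D (h : PolyTimeOn {G | Small G.2 ∧ gammaMB G.2 ≠ ⊤} (fun G => gammaMB G.2))
    (L : Set (List Bool)) (hL : NP.InNP L ∨ InPSPACE L) : InP L :=
  inP_of_qbf h QFD kQD poly_QFD poly_kQD (fun φ => ⟨small_gr _, finite_QD φ⟩) qtrue_iff_D L hL

end Pool.Agent.Helper7.CogP
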