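import Pool.Agent.Helper7.CogP.Savitch
import Pool.Agent.Helper86.Poly.CookLevin

/-!
Every problem in PSPACE reduces to the truth of quantified formulas.
-/

set_option autoImplicit false

namespace Pool.Agent.Helper7.CogP

open Pool.Agent.Helper86 Turing Computability Sim

/-- The class PSPACE: membership in `L` is computed by a stack machine of Mathlib with the following
property, for some polynomial `p`: in the computation on the input `x` no stack ever holds more than
`p(|x|)` symbols. -/
def InPSPACE (L : Set (List Bool)) : Prop :=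
  ∃ (V : List Bool → Bool)
    (h : TM2Computable (encodingList Bool).encode encodingBoolBool.encode V) (p : Polynomial ℕ),
    (∀ (x : List Bool) (n : ℕ) (c : h.tm.Cfg),
      (flip bind h.tm.step)^[n] (some (initList h.tm (List.map h.inputAlphabet.invFun x)))
        = some c → ∀ k, (c.stk k).length ≤ p.eval x.length) ∧
    ∀ x : List Bool, x ∈ L ↔ V x = true

/-! ### The formula in polynomial time -/

theorem poly_preM {α : Type} [PT.TEnc α] {w k : α → ℕ} (hw : PT.Poly w) (hk : PT.Poly k) :
    PT.Poly (fun a => preM (w a) (k a)) := by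
  refine (PT.Poly.flatMap (l := fun a => List.range (k a))
    (f := fun a _ => List.replicate (3 * w a) true ++ [false]) (PT.Poly.range hk) ?_).congr
    (fun a => (preM_eq _ _).symm)
  exact PT.Poly.append (PT.Poly.replicate (PT.Poly.mul (PT.Poly.const 3)
    (hw.comp (PT.Poly.fst PT.Poly.id))) (PT.Poly.const true)) (PT.Poly.const [false])

theorem poly_savM {α : Type} [PT.TEnc α] (A cb : ℕ) (rej : List ℕ)
    (tuples : List (ℕ × ℕ × ℕ × ℕ × ℕ)) {R w K : α → ℕ} {ini : α → List ℕ} (hR : PT.Poly R)
    (hw : PT.Poly w) (hK : PT.Poly K) (hini : PT.Poly ini) :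
    PT.Poly (fun a => savM A (R a) (w a) (K a) (ini a) cb rej tuples) := by
  have hst : PT.Poly (fun a => st (w a)) := PT.Poly.succ (PT.Poly.mul (PT.Poly.const 3) hw)
  unfold savM
  refine PT.Poly.append ?_ (PT.Poly.append ?_ (PT.Poly.append ?_ (PT.Poly.append ?_ ?_)))
  · unfold initC
    refine PT.Poly.map (l := fun a => List.range (R a + 1))
      (f := fun a j => [(true, j * A + (ini a).getD j cb)]) (PT.Poly.range (PT.Poly.succ hR)) ?_
    refine PT.Poly.cons (PT.Poly.pair (PT.Poly.const true) ?_) (PT.Poly.const [])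
    exact PT.Poly.add (PT.Poly.mul (PT.Poly.snd PT.Poly.id) (PT.Poly.const A))
      (PT.Poly.getD (hini.comp (PT.Poly.fst PT.Poly.id)) (PT.Poly.snd PT.Poly.id)
        (PT.Poly.const cb))
  · unfold rejC
    refine PT.Poly.map (l := fun _ : α => rej) (f := fun a u => [(false, w a + (A + u))])
      (PT.Poly.const _) ?_
    refine PT.Poly.cons (PT.Poly.pair (PT.Poly.const false) ?_) (PT.Poly.const [])
    exact PT.Poly.add (hw.comp (PT.Poly.fst PT.Poly.id)) (PT.Poly.add (PT.Poly.const A)
      (PT.Poly.snd PT.Poly.id))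
  · unfold linkC
    refine PT.Poly.flatMap (l := fun a => List.range (K a)) (f := fun a l =>
      (List.range (w a)).flatMap fun i =>
    [[(true, l * st (w a) + 3 * w a), (false, l * st (w a) + i), (true, (l + 1) * st (w a) + i)],
      [(true, l * st (w a) + 3 * w a), (false, (l + 1) * st (w a) + w a + i),
        (true, l * st (w a) + 2 * w a + i)],
      [(false, l * st (w a) + 3 * w a), (false, l * st (w a) + 2 * w a + i),
        (true, (l + 1) * st (w a) + i)],
      [(false, l * st (w a) + 3 * w a), (false, (l + 1) * st (w a) + w a + i),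
        (true, l * st (w a) + w a + i)]]) (PT.Poly.range hK) ?_
    refine PT.Poly.flatMap (l := fun p : α × ℕ => List.range (w p.1)) (f := fun p i =>
    [[(true, p.2 * st (w p.1) + 3 * w p.1), (false, p.2 * st (w p.1) + i),
        (true, (p.2 + 1) * st (w p.1) + i)],
      [(true, p.2 * st (w p.1) + 3 * w p.1), (false, (p.2 + 1) * st (w p.1) + w p.1 + i),
        (true, p.2 * st (w p.1) + 2 * w p.1 + i)],
      [(false, p.2 * st (w p.1) + 3 * w p.1), (false, p.2 * st (w p.1) + 2 * w p.1 + i),
        (true, (p.2 + 1) * st (w p.1) + i)],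
      [(false, p.2 * st (w p.1) + 3 * w p.1), (false, (p.2 + 1) * st (w p.1) + w p.1 + i),
        (true, p.2 * st (w p.1) + w p.1 + i)]])
      (PT.Poly.range (hw.comp (PT.Poly.fst PT.Poly.id))) ?_
    have hw' : PT.Poly (fun q : (α × ℕ) × ℕ => w q.1.1) :=
      hw.comp (PT.Poly.fst (PT.Poly.fst PT.Poly.id))
    have hs' : PT.Poly (fun q : (α × ℕ) × ℕ => st (w q.1.1)) :=
      hst.comp (PT.Poly.fst (PT.Poly.fst PT.Poly.id))
    have hl : PT.Poly (fun q : (α × ℕ) × ℕ => q.1.2) := PT.Poly.snd (PT.Poly.fst PT.Poly.id)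
    have hi : PT.Poly (fun q : (α × ℕ) × ℕ => q.2) := PT.Poly.snd PT.Poly.id
    have h0 : PT.Poly (fun q : (α × ℕ) × ℕ => q.1.2 * st (w q.1.1)) := PT.Poly.mul hl hs'
    have h1 : PT.Poly (fun q : (α × ℕ) × ℕ => (q.1.2 + 1) * st (w q.1.1)) :=
      PT.Poly.mul (PT.Poly.succ hl) hs'
    have b : ∀ v : Bool, PT.Poly (fun q : (α × ℕ) × ℕ => (v, q.1.2 * st (w q.1.1) + 3 * w q.1.1)) :=
      fun v => PT.Poly.pair (PT.Poly.const v) (PT.Poly.add h0 (PT.Poly.mul (PT.Poly.const 3) hw'))
    have X0 : PT.Poly (fun q : (α × ℕ) × ℕ => (false, q.1.2 * st (w q.1.1) + q.2)) :=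
      PT.Poly.pair (PT.Poly.const false) (PT.Poly.add h0 hi)
    have X1 : PT.Poly (fun q : (α × ℕ) × ℕ => (true, (q.1.2 + 1) * st (w q.1.1) + q.2)) :=
      PT.Poly.pair (PT.Poly.const true) (PT.Poly.add h1 hi)
    have Y0 : PT.Poly (fun q : (α × ℕ) × ℕ => (true, q.1.2 * st (w q.1.1) + w q.1.1 + q.2)) :=
      PT.Poly.pair (PT.Poly.const true) (PT.Poly.add (PT.Poly.add h0 hw') hi)
    have Y1 : PT.Poly (fun q : (α × ℕ) × ℕ =>
        (false, (q.1.2 + 1) * st (w q.1.1) + w q.1.1 + q.2)) :=
      PT.Poly.pair (PT.Poly.const false) (PT.Poly.add (PT.Poly.add h1 hw') hi)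
    have M0 : ∀ v : Bool, PT.Poly (fun q : (α × ℕ) × ℕ =>
        (v, q.1.2 * st (w q.1.1) + 2 * w q.1.1 + q.2)) := fun v =>
      PT.Poly.pair (PT.Poly.const v) (PT.Poly.add (PT.Poly.add h0
        (PT.Poly.mul (PT.Poly.const 2) hw')) hi)
    have hn : PT.Poly (fun _ : (α × ℕ) × ℕ => ([] : List (Bool × ℕ))) := PT.Poly.const []
    exact PT.Poly.cons (PT.Poly.cons (b true) (PT.Poly.cons X0 (PT.Poly.cons X1 hn)))
      (PT.Poly.cons (PT.Poly.cons (b true) (PT.Poly.cons Y1 (PT.Poly.cons (M0 true) hn)))
        (PT.Poly.cons (PT.Poly.cons (b false) (PT.Poly.cons (M0 false) (PT.Poly.cons X1 hn)))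
          (PT.Poly.cons (PT.Poly.cons (b false) (PT.Poly.cons Y1 (PT.Poly.cons Y0 hn)))
            (PT.Poly.const []))))
  · unfold ruleC
    refine PT.Poly.flatMap (l := fun a => List.range (R a)) (f := fun a j => tuples.map fun u =>
    [(false, K a * st (w a) + (0 * A + u.1)), (false, K a * st (w a) + ((j - 1) * A + u.2.1)),
      (false, K a * st (w a) + (j * A + u.2.2.1)),
      (false, K a * st (w a) + ((j + 1) * A + u.2.2.2.1)),
      (true, K a * st (w a) + w a + (j * A + u.2.2.2.2))]) (PT.Poly.range hR) ?_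
    refine PT.Poly.map (l := fun _ : α × ℕ => tuples) (f := fun p u =>
    [(false, K p.1 * st (w p.1) + (0 * A + u.1)),
      (false, K p.1 * st (w p.1) + ((p.2 - 1) * A + u.2.1)),
      (false, K p.1 * st (w p.1) + (p.2 * A + u.2.2.1)),
      (false, K p.1 * st (w p.1) + ((p.2 + 1) * A + u.2.2.2.1)),
      (true, K p.1 * st (w p.1) + w p.1 + (p.2 * A + u.2.2.2.2))]) (PT.Poly.const _) ?_
    have ha : PT.Poly (fun q : (α × ℕ) × (ℕ × ℕ × ℕ × ℕ × ℕ) => q.1.1) :=
      PT.Poly.fst (PT.Poly.fst PT.Poly.id)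
    have hj : PT.Poly (fun q : (α × ℕ) × (ℕ × ℕ × ℕ × ℕ × ℕ) => q.1.2) :=
      PT.Poly.snd (PT.Poly.fst PT.Poly.id)
    have hu : PT.Poly (fun q : (α × ℕ) × (ℕ × ℕ × ℕ × ℕ × ℕ) => q.2) := PT.Poly.snd PT.Poly.id
    have hb : PT.Poly (fun q : (α × ℕ) × (ℕ × ℕ × ℕ × ℕ × ℕ) => K q.1.1 * st (w q.1.1)) :=
      PT.Poly.mul (hK.comp ha) (hst.comp ha)
    have hAc : PT.Poly (fun _ : (α × ℕ) × (ℕ × ℕ × ℕ × ℕ × ℕ) => A) := PT.Poly.const A
    refine PT.Poly.cons (PT.Poly.pair (PT.Poly.const _) (PT.Poly.add hb
      (PT.Poly.add (PT.Poly.mul (PT.Poly.const 0) hAc) (PT.Poly.fst hu)))) ?_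
    refine PT.Poly.cons (PT.Poly.pair (PT.Poly.const _) (PT.Poly.add hb
      (PT.Poly.add (PT.Poly.mul (PT.Poly.pred hj) hAc) (PT.Poly.fst (PT.Poly.snd hu))))) ?_
    refine PT.Poly.cons (PT.Poly.pair (PT.Poly.const _) (PT.Poly.add hb
      (PT.Poly.add (PT.Poly.mul hj hAc) (PT.Poly.fst (PT.Poly.snd (PT.Poly.snd hu)))))) ?_
    refine PT.Poly.cons (PT.Poly.pair (PT.Poly.const _) (PT.Poly.add hb
      (PT.Poly.add (PT.Poly.mul (PT.Poly.succ hj) hAc)
        (PT.Poly.fst (PT.Poly.snd (PT.Poly.snd (PT.Poly.snd hu))))))) ?_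
    exact PT.Poly.cons (PT.Poly.pair (PT.Poly.const _) (PT.Poly.add
      (PT.Poly.add hb (hw.comp ha)) (PT.Poly.add (PT.Poly.mul hj hAc)
        (PT.Poly.snd (PT.Poly.snd (PT.Poly.snd (PT.Poly.snd hu))))))) (PT.Poly.const [])
  · refine PT.Poly.cons (PT.Poly.cons (PT.Poly.pair (PT.Poly.const true) ?_) (PT.Poly.const []))
      (PT.Poly.const [])
    exact PT.Poly.add (PT.Poly.add (PT.Poly.mul hK hst) hw)
      (PT.Poly.add (PT.Poly.mul hR (PT.Poly.const A)) (PT.Poly.const cb))

/-! ### Long runs from strings -/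

section
variable {C : Type}

/-- The initial row of a string. -/
def row0 (start : C) (sx : Bool → C) (blank : C) (x : List Bool) : ℕ → C
  | 0 => start
  | j + 1 => (x.map sx).getD j blank

theorem savitch (rule : C → C → C → C → C) (F : Set C) (hF : F.Finite)
    (closed : ∀ g ∈ F, ∀ l ∈ F, ∀ c ∈ F, ∀ r ∈ F, rule g l c r ∈ F)
    (start : C) (sx : Bool → C) (blank : C) (acc : C → Prop)
    (hstart : start ∈ F) (hsx : ∀ b, sx b ∈ F) (hblank : blank ∈ F) (r k : Polynomial ℕ)
    (hr : ∀ n, 1 ≤ r.eval n) (hlast : ∀ (x : List Bool) (t : ℕ),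
      (PT.stepRow rule)^[t] (row0 start sx blank x) (r.eval x.length) = blank) :
    ∃ Φ : List Bool → QBF, PT.Poly Φ ∧ ∀ x, QTrue (Φ x) ↔
      acc ((PT.stepRow rule)^[2 ^ k.eval x.length] (row0 start sx blank x) 1) := by
  classical
  obtain ⟨code, hcode⟩ : ∃ f : C → ℕ, Set.InjOn f F :=
    Set.countable_iff_exists_injOn.mp hF.countable
  set LF : List C := hF.toFinset.toList with hLF
  have hmem : ∀ c, c ∈ LF ↔ c ∈ F := by intro c; simp [hLF]
  set A : ℕ := (LF.map code).sum + 1 with hA
  have hlt : ∀ c ∈ F, code c < A := by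
    intro c hc
    have h1 : code c ∈ LF.map code := List.mem_map_of_mem ((hmem c).mpr hc)
    have h2 := List.single_le_sum (fun y _ => Nat.zero_le y) _ h1
    omega
  set tuples : List (ℕ × ℕ × ℕ × ℕ × ℕ) :=
    LF.flatMap fun g => LF.flatMap fun l => LF.flatMap fun c => LF.map fun r =>
      (code g, code l, code c, code r, code (rule g l c r)) with htuples
  set rej : List ℕ := (LF.filter (fun c => ¬ acc c)).map code with hrej
  have htup : ∀ u, u ∈ tuples ↔ ∃ g ∈ F, ∃ l ∈ F, ∃ c ∈ F, ∃ r ∈ F,
      u = (code g, code l, code c, code r, code (rule g l c r)) := by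
    intro u
    simp only [htuples, List.mem_flatMap, List.mem_map, hmem]
    constructor
    · rintro ⟨g, hg, l, hl, c, hc, r, hr, rfl⟩; exact ⟨g, hg, l, hl, c, hc, r, hr, rfl⟩
    · rintro ⟨g, hg, l, hl, c, hc, r, hr, rfl⟩; exact ⟨g, hg, l, hl, c, hc, r, hr, rfl⟩
  have hrejm : ∀ a, a ∈ rej ↔ ∃ c ∈ F, ¬ acc c ∧ a = code c := by
    intro a
    simp only [hrej, List.mem_map, List.mem_filter, hmem, decide_eq_true_eq]
    constructor
    · rintro ⟨c, ⟨h1, h2⟩, rfl⟩; exact ⟨c, h1, h2, rfl⟩
    · rintro ⟨c, h1, h2, rfl⟩; exact ⟨c, ⟨h1, h2⟩, rfl⟩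
  have hn : PT.Poly (fun x : List Bool => x.length) := PT.Poly.length PT.Poly.id
  have hrP : PT.Poly (fun x : List Bool => r.eval x.length) := PT.Poly.polyEval hn r
  have hkP : PT.Poly (fun x : List Bool => k.eval x.length) := PT.Poly.polyEval hn k
  have hwP : PT.Poly (fun x : List Bool => (r.eval x.length + 1) * A) :=
    PT.Poly.mul (PT.Poly.succ hrP) (PT.Poly.const A)
  have hiP : PT.Poly (fun x : List Bool =>
      code start :: x.map (fun b => bif b then code (sx true) else code (sx false))) :=
    PT.Poly.cons (PT.Poly.const _) (PT.Poly.map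
      (f := fun _ b => bif b then code (sx true) else code (sx false)) PT.Poly.id
      (PT.Poly.cond (PT.Poly.snd PT.Poly.id) (PT.Poly.const _) (PT.Poly.const _)))
  refine ⟨fun x => (preM ((r.eval x.length + 1) * A) (k.eval x.length),
    savM A (r.eval x.length) ((r.eval x.length + 1) * A) (k.eval x.length)
      (code start :: x.map (fun b => bif b then code (sx true) else code (sx false)))
      (code blank) rej tuples), PT.Poly.pair (poly_preM hwP hkP)
        (poly_savM A (code blank) rej tuples hrP hwP hkP hiP), fun x => ?_⟩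
  have hF0 : ∀ j, row0 start sx blank x j ∈ F := by
    intro j
    cases j with
    | zero => exact hstart
    | succ j =>
      show (x.map sx).getD j blank ∈ F
      rw [List.getD_eq_getElem?_getD]
      cases h : (x.map sx)[j]? with
      | none => exact hblank
      | some s =>
        obtain ⟨b, _, rfl⟩ := List.mem_map.mp (List.mem_of_getElem? h)
        exact hsx b
  have hρF : ∀ t j, (PT.stepRow rule)^[t] (row0 start sx blank x) j ∈ F := by
    intro t
    induction t with
    | zero => exact hF0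
    | succ t ih =>
      intro j
      rw [Function.iterate_succ_apply']
      exact closed _ (ih _) _ (ih _) _ (ih _) _ (ih _)
  have H : Run rule F code A (r.eval x.length)
      (fun t => (PT.stepRow rule)^[t] (row0 start sx blank x)) blank acc
      (code start :: x.map (fun b => bif b then code (sx true) else code (sx false))) rej
      tuples := by
    refine ⟨fun t j => ?_, hρF, hcode, hlt, fun t => hlast x t, hr _, fun j _ => ?_, hrejm, htup⟩
    · rw [Function.iterate_succ_apply']
      rfl
    · cases j with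
      | zero => rfl
      | succ j =>
        rw [List.getD_cons_succ]
        show _ = code ((x.map sx).getD j blank)
        rw [List.getD_eq_getElem?_getD, List.getD_eq_getElem?_getD, List.getElem?_map,
          List.getElem?_map]
        cases (x)[j]? with
        | none => rfl
        | some b => cases b <;> rfl
  exact sav_iff H rfl

end

/-! ### Space bounds for small steps -/

section
variable {K : Type} {Γ : K → Type} {Λ σ : Type} [DecidableEq K]

theorem sim_stmt' (M : Λ → TM2.Stmt Γ Λ σ) (q : TM2.Stmt Γ Λ σ) :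
    ∀ (v : σ) (S : ∀ k, List (Γ k)),
    ∃ n, 1 ≤ n ∧ n ≤ ssz q ∧ (mstep M)^[n] (some q, v, S) = emb M (TM2.stepAux q v S) := by
  induction q with
  | push k f q ih =>
    intro v S
    obtain ⟨n, _, hn, h⟩ := ih v (Function.update S k (f v :: S k))
    exact ⟨n + 1, by omega, Nat.succ_le_succ hn, by rw [Function.iterate_succ_apply]; exact h⟩
  | peek k f q ih =>
    intro v S
    obtain ⟨n, _, hn, h⟩ := ih (f v (S k).head?) S
    exact ⟨n + 1, by omega, Nat.succ_le_succ hn, by rw [Function.iterate_succ_apply]; exact h⟩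
  | pop k f q ih =>
    intro v S
    obtain ⟨n, _, hn, h⟩ := ih (f v (S k).head?) (Function.update S k (S k).tail)
    exact ⟨n + 1, by omega, Nat.succ_le_succ hn, by rw [Function.iterate_succ_apply]; exact h⟩
  | load a q ih =>
    intro v S
    obtain ⟨n, _, hn, h⟩ := ih (a v) S
    exact ⟨n + 1, by omega, Nat.succ_le_succ hn, by rw [Function.iterate_succ_apply]; exact h⟩
  | branch f q₁ q₂ ih₁ ih₂ =>
    intro v S
    cases hf : f v with
    | true =>
      obtain ⟨n, _, hn, h⟩ := ih₁ v S
      refine ⟨n + 1, by omega, by simp only [ssz]; omega, ?_⟩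
      rw [Function.iterate_succ_apply]
      have e : mstep M (some (.branch f q₁ q₂), v, S) = (some q₁, v, S) := by
        show ((some (cond (f v) q₁ q₂), v, S) : MCfg Γ Λ σ) = _
        rw [hf]; rfl
      rw [e, h]
      simp only [TM2.stepAux, hf, cond_true]
    | false =>
      obtain ⟨n, _, hn, h⟩ := ih₂ v S
      refine ⟨n + 1, by omega, by simp only [ssz]; omega, ?_⟩
      rw [Function.iterate_succ_apply]
      have e : mstep M (some (.branch f q₁ q₂), v, S) = (some q₂, v, S) := by
        show ((some (cond (f v) q₁ q₂), v, S) : MCfg Γ Λ σ) = _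
        rw [hf]; rfl
      rw [e, h]
      simp only [TM2.stepAux, hf, cond_false]
  | goto f =>
    intro v S
    exact ⟨1, le_refl _, le_refl _, rfl⟩
  | halt =>
    intro v S
    exact ⟨1, le_refl _, le_refl _, rfl⟩

/-- Every small step configuration leads to a configuration of the machine. -/
theorem lead_to (M : Λ → TM2.Stmt Γ Λ σ) (C : ℕ) (hC : ∀ l, ssz (M l) ≤ C)
    (c₀ : TM2.Cfg Γ Λ σ) (t : ℕ) : ∃ n ≤ C, ∃ (i : ℕ) (c' : TM2.Cfg Γ Λ σ),
      (flip bind (TM2.step M))^[i] (some c₀) = some c' ∧
      (mstep M)^[n] ((mstep M)^[t] (emb M c₀)) = emb M c' := by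
  induction t with
  | zero => exact ⟨0, Nat.zero_le _, 0, c₀, rfl, rfl⟩
  | succ t ih =>
    obtain ⟨n, hn, i, c', h1, h2⟩ := ih
    cases n with
    | succ n =>
      refine ⟨n, by omega, i, c', h1, ?_⟩
      rw [← h2, Function.iterate_succ_apply' (mstep M) t, ← Function.iterate_succ_apply]
    | zero =>
      have h2' : (mstep M)^[t] (emb M c₀) = emb M c' := h2
      rw [Function.iterate_succ_apply', h2']
      obtain ⟨l, v, S⟩ := c'
      cases l with
      | none => exact ⟨0, Nat.zero_le _, i, _, h1, rfl⟩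
      | some l =>
        obtain ⟨n, hn1, hn2, h3⟩ := sim_stmt' M (M l) v S
        obtain ⟨n, rfl⟩ : ∃ n', n = n' + 1 := ⟨n - 1, by omega⟩
        have hCl := hC l
        refine ⟨n, by omega, i + 1, TM2.stepAux (M l) v S, ?_, ?_⟩
        · rw [Function.iterate_succ_apply', h1]
          rfl
        · rw [← Function.iterate_succ_apply]
          exact h3

theorem app_length_ge (a : Act Γ) (S : ∀ k, List (Γ k)) (k : K) :
    (S k).length ≤ (a.app S k).length + 1 := by
  cases a with
  | keep => exact Nat.le_succ _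
  | pop k' =>
    simp only [Act.app]
    by_cases hk : k = k'
    · subst hk
      rw [Function.update_self, List.length_tail]
      omega
    · rw [Function.update_of_ne hk]
      omega
  | push k' b =>
    simp only [Act.app]
    by_cases hk : k = k'
    · subst hk
      rw [Function.update_self, List.length_cons]
      omega
    · rw [Function.update_of_ne hk]
      omega

theorem iter_length_ge (M : Λ → TM2.Stmt Γ Λ σ) (n : ℕ) (c : MCfg Γ Λ σ) (k : K) :
    (c.2.2 k).length ≤ (((mstep M)^[n] c).2.2 k).length + n := by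
  induction n with
  | zero => exact le_refl _
  | succ n ih =>
    rw [Function.iterate_succ_apply']
    have h := app_length_ge (act ((mstep M)^[n] c).1 ((mstep M)^[n] c).2.1)
      ((mstep M)^[n] c).2.2 k
    change (((mstep M)^[n] c).2.2 k).length ≤ ((mstep M ((mstep M)^[n] c)).2.2 k).length + 1 at h
    omega

/-- Space bound for small steps. -/
theorem space_small (M : Λ → TM2.Stmt Γ Λ σ) (C : ℕ) (hC : ∀ l, ssz (M l) ≤ C)
    (c₀ : TM2.Cfg Γ Λ σ) (P : ℕ) (hP : ∀ (i : ℕ) (c' : TM2.Cfg Γ Λ σ),
      (flip bind (TM2.step M))^[i] (some c₀) = some c' → ∀ k, (c'.stk k).length ≤ P)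
    (t : ℕ) (k : K) : (((mstep M)^[t] (emb M c₀)).2.2 k).length ≤ P + C := by
  obtain ⟨n, hn, i, c', h1, h2⟩ := lead_to M C hC c₀ t
  have h3 := iter_length_ge M n ((mstep M)^[t] (emb M c₀)) k
  rw [h2] at h3
  have h4 := hP i c' h1 k
  change _ ≤ (c'.stk k).length + n at h3
  omega

omit [DecidableEq K] in
theorem row_inj {c c' : MCfg Γ Λ σ} {R : ℕ} (hc : ∀ k, (c.2.2 k).length < R)
    (hc' : ∀ k, (c'.2.2 k).length < R) (h : ∀ j ≤ R, row c j = row c' j) : c = c' := by
  obtain ⟨q, v, S⟩ := c
  obtain ⟨q', v', S'⟩ := c'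
  have h0 := Sum.inl.inj (h 0 (Nat.zero_le _))
  rw [Prod.mk.injEq] at h0
  have h1 : S = S' := by
    funext k
    refine List.ext_getElem? fun j => ?_
    rcases Nat.lt_or_ge j R with hj | hj
    · have h2 := Sum.inr.inj (h (j + 1) hj)
      exact congrFun h2 k
    · have h2 : (S k)[j]? = none := List.getElem?_eq_none (by have := hc k; simp only at this; omega)
      have h3 : (S' k)[j]? = none :=
        List.getElem?_eq_none (by have := hc' k; simp only at this; omega)
      rw [h2, h3]
  rw [h1]
  have h2 : q = q' := h0.1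
  have h3 : v = v' := h0.2
  rw [h2, h3]

/-- A machine that halts and uses little space halts soon. -/
theorem halts_soon (M : Λ → TM2.Stmt Γ Λ σ) (F : Set (Cell Γ Λ σ)) (hF : F.Finite)
    (c : MCfg Γ Λ σ) (hmem : ∀ t j, row ((mstep M)^[t] c) j ∈ F) (R : ℕ)
    (hR : ∀ t k, (((mstep M)^[t] c).2.2 k).length < R) (N : ℕ) (v : σ) (S : ∀ k, List (Γ k))
    (hN : ∀ t, N ≤ t → (mstep M)^[t] c = (none, v, S)) :
    ∀ t, hF.toFinset.card ^ (R + 1) ≤ t → (mstep M)^[t] c = (none, v, S) := by
  classical
  let _ : Fintype F := hF.fintype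
  have hex : ∃ t, ((mstep M)^[t] c).1 = none := ⟨N, by rw [hN N le_rfl]⟩
  set T := Nat.find hex with hT
  have hT1 : ((mstep M)^[T] c).1 = none := Nat.find_spec hex
  have hstay : ∀ t, T ≤ t → (mstep M)^[t] c = (mstep M)^[T] c := by
    intro t ht
    obtain ⟨d, rfl⟩ := Nat.exists_eq_add_of_le' ht
    rw [Function.iterate_add_apply]
    rcases hc : (mstep M)^[T] c with ⟨q, v', S'⟩
    rw [hc] at hT1
    change q = none at hT1
    rw [hT1]
    exact mstep_halt M v' S' d
  have hfin : (mstep M)^[T] c = (none, v, S) := by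
    rw [← hstay (max N T) (le_max_right _ _)]
    exact hN _ (le_max_left _ _)
  have hinj : Function.Injective (fun (t : Fin (T + 1)) (j : Fin (R + 1)) =>
      (⟨row ((mstep M)^[t.1] c) j.1, hmem t.1 j.1⟩ : F)) := by
    have key : ∀ s t : ℕ, s < t → t ≤ T →
        (∀ j ≤ R, row ((mstep M)^[s] c) j = row ((mstep M)^[t] c) j) → False := by
      intro s t hst htT h
      have h1 := row_inj (hR s) (hR t) h
      have h2 : (mstep M)^[s + (T - t)] c = (mstep M)^[T] c := by
        have e1 : s + (T - t) = (T - t) + s := by omega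
        have e2 : T = (T - t) + t := by omega
        conv_rhs => rw [e2]
        rw [e1, Function.iterate_add_apply, Function.iterate_add_apply, h1]
      have h3 : ((mstep M)^[s + (T - t)] c).1 = none := by rw [h2]; exact hT1
      have h4 := Nat.find_min' hex h3
      omega
    intro s t hst
    have h : ∀ j ≤ R, row ((mstep M)^[s.1] c) j = row ((mstep M)^[t.1] c) j := by
      intro j hj
      exact congrArg Subtype.val (congrFun hst ⟨j, by omega⟩)
    rcases lt_trichotomy s.1 t.1 with h1 | h1 | h1
    · exact (key _ _ h1 (by omega) h).elim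
    · exact Fin.ext h1
    · exact (key _ _ h1 (by omega) (fun j hj => (h j hj).symm)).elim
  have hcard := Fintype.card_le_of_injective _ hinj
  rw [Fintype.card_fin, Fintype.card_fun, Fintype.card_fin] at hcard
  have hc2 : Fintype.card F = hF.toFinset.card := by
    rw [← Set.toFinset_card]
    rfl
  rw [hc2] at hcard
  intro t ht
  rw [hstay t (by omega), hfin]

end

/-- **Every problem in PSPACE reduces to the truth of quantified formulas.** -/
theorem qbf_hard {L : Set (List Bool)} (hL : InPSPACE L) :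
    ∃ Φ : List Bool → QBF, PT.Poly Φ ∧ ∀ x, x ∈ L ↔ QTrue (Φ x) := by
  obtain ⟨V, h, p, hp, hV⟩ := hL
  let _ : DecidableEq h.tm.K := h.tm.kDecidableEq
  let _ : Fintype h.tm.K := h.tm.kFin
  let _ : Fintype h.tm.Λ := h.tm.ΛFin
  let _ : Fintype h.tm.σ := h.tm.σFin
  let _ : Fintype (h.tm.Γ h.tm.k₀) := h.tm.Γk₀Fin
  obtain ⟨C, hC⟩ : ∃ C, ∀ l, ssz (h.tm.m l) ≤ C :=
    ⟨Finset.univ.sup fun l => ssz (h.tm.m l), fun l =>
      Finset.le_sup (f := fun l => ssz (h.tm.m l)) (Finset.mem_univ l)⟩
  have hF := cells_finite h.tm.m h.tm.k₀ inferInstance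
  set a : ℕ := hF.toFinset.card with ha
  set r : Polynomial ℕ := p + Polynomial.C (C + 2) with hr
  have hre : ∀ n, r.eval n = p.eval n + (C + 2) := by
    intro n
    rw [hr, Polynomial.eval_add, Polynomial.eval_C]
  set k : Polynomial ℕ := Polynomial.C a * (r + 1) with hk
  have hke : ∀ n, k.eval n = a * (r.eval n + 1) := by
    intro n
    rw [hk, Polynomial.eval_mul, Polynomial.eval_C, Polynomial.eval_add, Polynomial.eval_one]
  let one : Option (h.tm.Γ h.tm.k₀) → Cell h.tm.Γ h.tm.Λ h.tm.σ := fun a =>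
    Sum.inr (Function.update (fun _ => none) h.tm.k₀ a)
  let start : Cell h.tm.Γ h.tm.Λ h.tm.σ := Sum.inl (some (h.tm.m h.tm.main), h.tm.initialState)
  let sx : Bool → Cell h.tm.Γ h.tm.Λ h.tm.σ := fun b =>
    one (some (h.inputAlphabet.invFun b))
  let acc : Cell h.tm.Γ h.tm.Λ h.tm.σ → Prop := fun c =>
    sym c h.tm.k₁ = some (h.outputAlphabet.invFun true)
  have hone : ∀ a, one a ∈ cells h.tm.m h.tm.k₀ := by
    intro a k b hb
    by_cases hk : k = h.tm.k₀
    · exact Or.inr hk
    · change Function.update (fun _ => none) h.tm.k₀ a k = some b at hb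
      rw [Function.update_of_ne hk] at hb
      exact absurd hb (by simp)
  -- the initial row
  have hrow : ∀ x : List Bool, row (emb h.tm.m (initList h.tm
      (List.map h.inputAlphabet.invFun x))) = row0 start sx (one none) x := by
    intro x
    funext j
    set w := List.map h.inputAlphabet.invFun x with hw
    cases j with
    | zero => rfl
    | succ j =>
      have e1 : x.map sx = w.map (fun a => one (some a)) := by
        rw [hw, List.map_map]
        rfl
      show _ = (x.map sx).getD j (one none)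
      rw [e1, List.getD_eq_getElem?_getD, List.getElem?_map]
      have e2 : (Option.map (fun a => one (some a)) w[j]?).getD (one none) = one w[j]? := by
        cases w[j]? <;> rfl
      rw [e2]
      show Sum.inr (fun k => ((initList h.tm w).stk k)[j]?) = _
      congr 1
      funext k
      by_cases hk : k = h.tm.k₀
      · subst hk
        rw [Function.update_self]
        have : (initList h.tm w).stk h.tm.k₀ = w := by
          simp [initList]
        rw [this]
      · rw [Function.update_of_ne hk]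
        have : (initList h.tm w).stk k = [] := by
          simp [initList, hk]
        rw [this]
        rfl
  have hiter : ∀ (x : List Bool) (t : ℕ), (PT.stepRow (rule h.tm.m))^[t]
      (row0 start sx (one none) x) = row ((mstep h.tm.m)^[t] (emb h.tm.m (initList h.tm
      (List.map h.inputAlphabet.invFun x)))) := by
    intro x t
    rw [row_iterate, hrow]
    rfl
  have hspace : ∀ (x : List Bool) (t : ℕ) (k : h.tm.K), (((mstep h.tm.m)^[t] (emb h.tm.m
      (initList h.tm (List.map h.inputAlphabet.invFun x)))).2.2 k).length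
        ≤ p.eval x.length + C := fun x t k =>
    space_small h.tm.m C hC _ _ (fun i c' hc' => hp x i c' hc') t k
  have hnone : ∀ (x : List Bool) (t : ℕ), (PT.stepRow (rule h.tm.m))^[t]
      (row0 start sx (one none) x) (r.eval x.length) = one none := by
    intro x t
    rw [hiter, hre]
    have e : row ((mstep h.tm.m)^[t] (emb h.tm.m (initList h.tm
        (List.map h.inputAlphabet.invFun x)))) (p.eval x.length + (C + 2)) =
        Sum.inr (fun k => (((mstep h.tm.m)^[t] (emb h.tm.m (initList h.tm
        (List.map h.inputAlphabet.invFun x)))).2.2 k)[p.eval x.length + (C + 1)]?) := rfl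
    rw [e]
    show Sum.inr _ = Sum.inr _
    congr 1
    funext k
    rw [List.getElem?_eq_none (by have := hspace x t k; omega)]
    by_cases hk : k = h.tm.k₀
    · subst hk
      rw [Function.update_self]
    · rw [Function.update_of_ne hk]
  obtain ⟨Φ, hΦ, hΦ'⟩ := savitch (rule h.tm.m) (cells h.tm.m h.tm.k₀) hF
    (fun g hg l hl c hc r hr => rule_mem h.tm.m h.tm.k₀ hg hl hc hr)
    start sx (one none) acc (stmts_label h.tm.m h.tm.main) (fun b => hone _)
    (hone _) r k (fun n => by rw [hre]; omega) hnone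
  refine ⟨Φ, hΦ, fun x => ?_⟩
  rw [hV, hΦ', hiter]
  set w := List.map h.inputAlphabet.invFun x with hw
  have hmem : ∀ t j, row ((mstep h.tm.m)^[t] (emb h.tm.m (initList h.tm w))) j
      ∈ cells h.tm.m h.tm.k₀ := by
    intro t j
    rw [← hiter]
    induction t generalizing j with
    | zero =>
      cases j with
      | zero => exact stmts_label h.tm.m h.tm.main
      | succ j =>
        show (x.map sx).getD j (one none) ∈ _
        rw [List.getD_eq_getElem?_getD]
        cases h' : (x.map sx)[j]? with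
        | none => exact hone _
        | some s =>
          obtain ⟨b, _, rfl⟩ := List.mem_map.mp (List.mem_of_getElem? h')
          exact hone _
    | succ t ih =>
      rw [Function.iterate_succ_apply']
      exact rule_mem h.tm.m h.tm.k₀ (ih _) (ih _) (ih _) (ih _)
  -- the run
  have hrun := h.outputsFun x
  have hsteps := hrun.evals_in_steps
  have hN : ∀ t, C * hrun.steps ≤ t → (mstep h.tm.m)^[t] (emb h.tm.m (initList h.tm w)) =
      (none, h.tm.initialState,
        (haltList h.tm (List.map h.outputAlphabet.invFun (encodingBoolBool.encode (V x)))).stk) :=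
    fun t ht => sim_halt h.tm.m C hC hrun.steps (initList h.tm w) h.tm.initialState _ hsteps t ht
  have hle : a ^ (r.eval x.length + 1) ≤ 2 ^ k.eval x.length := by
    rw [hke, pow_mul]
    exact Nat.pow_le_pow_left (Nat.lt_two_pow_self).le _
  have hfin := halts_soon h.tm.m (cells h.tm.m h.tm.k₀) hF (emb h.tm.m (initList h.tm w)) hmem
    (r.eval x.length) (fun t k => by
      have h1 := hspace x t k
      rw [← hw] at h1
      rw [hre]
      omega) _ _ _ hN _ hle
  rw [hfin]
  have e4 : (haltList h.tm (List.map h.outputAlphabet.invFun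
      (encodingBoolBool.encode (V x)))).stk h.tm.k₁ = [h.outputAlphabet.invFun (V x)] := by
    simp [haltList, encodingBoolBool, encodeBool]
  show _ ↔ ((haltList h.tm (List.map h.outputAlphabet.invFun
      (encodingBoolBool.encode (V x)))).stk h.tm.k₁)[0]? = some (h.outputAlphabet.invFun true)
  rw [e4]
  constructor
  · intro hv; rw [hv]; rfl
  · intro hv
    have := Option.some.inj hv
    exact h.outputAlphabet.symm.injective this

end Pool.Agent.Helper7.CogP
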