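import Pool.Agent.Helper7.CogP.QRed
import Pool.Agent.Helper87.Cog.Alg

/-!
The reduction from quantified formulas is computable in polynomial time.
-/

set_option autoImplicit false

namespace Pool.Agent.Helper7.CogP

open Pool.Agent.Helper7.Cog Pool.Agent.Helper86 Pool.Agent.Helper87.Alg Computability Turing

/-- Quantified formulas. -/
abbrev QBF : Type := List Bool × List (List (Bool × ℕ))

theorem poly_uni : PT.Poly (fun p : QBF × ℕ => uni p.1 p.2) := by
  have hQ : PT.Poly Qv := PT.Poly.succ (PT.Poly.nodes PT.Poly.id)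
  unfold uni
  refine PT.Poly.and (PT.Poly.lt (PT.Poly.snd PT.Poly.id)
    (hQ.comp (PT.Poly.snd (PT.Poly.fst PT.Poly.id)))) ?_
  exact PT.Poly.not (PT.Poly.getD (PT.Poly.fst (PT.Poly.fst PT.Poly.id)) (PT.Poly.snd PT.Poly.id)
    (PT.Poly.const true))

theorem poly_UU : PT.Poly UU :=
  PT.Poly.add (PT.Poly.mul (PT.Poly.const 4) (poly_Z2.comp poly_xors)) poly_TT

theorem poly_W0 : PT.Poly (fun p : QBF × ℕ => W0 p.1.2 p.2) := by
  have hφ : PT.Poly (fun p : QBF × ℕ => p.1.2) := PT.Poly.snd (PT.Poly.fst PT.Poly.id)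
  exact PT.Poly.mul (PT.Poly.mul (PT.Poly.const 3) (PT.Poly.sub (poly_nv.comp hφ)
    (PT.Poly.snd PT.Poly.id))) (poly_UU.comp hφ)

theorem poly_blk : PT.Poly (fun p : QBF × ℕ => (blk p.1 p.2).flatMap tl) := by
  have hφ : PT.Poly (fun p : QBF × ℕ => p.1.2) := PT.Poly.snd (PT.Poly.fst PT.Poly.id)
  have hU : PT.Poly (fun p : QBF × ℕ => UU p.1.2) := poly_UU.comp hφ
  have hx : PT.Poly (fun p : QBF × ℕ => xors p.1.2) := poly_xors.comp hφ
  have hi : PT.Poly (fun p : QBF × ℕ => p.2) := PT.Poly.snd PT.Poly.id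
  have hw1 : PT.Poly (fun p : QBF × ℕ => W0 p.1.2 p.2 - UU p.1.2) := PT.Poly.sub poly_W0 hU
  have hw2 : PT.Poly (fun p : QBF × ℕ => W0 p.1.2 p.2 - 2 * UU p.1.2) :=
    PT.Poly.sub poly_W0 (PT.Poly.mul (PT.Poly.const 2) hU)
  have hn : PT.Poly (fun _ : QBF × ℕ => ([] : List ℕ)) := PT.Poly.const []
  have ht := poly_big hw1 (poly_cts hx hi (PT.Poly.const true))
  have hf := poly_big hw1 (poly_cts hx hi (PT.Poly.const false))
  have h0 : PT.Poly (fun _ : QBF × ℕ => ([] : List L)) := PT.Poly.const []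
  refine (PT.Poly.cond poly_uni
    (PT.Poly.cons (poly_big poly_W0 hn) (PT.Poly.cons ht (PT.Poly.cons hf
      (PT.Poly.cons (poly_big hw2 hn) h0))))
    (PT.Poly.cons ht (PT.Poly.cons hf h0))).congr (fun p => ?_)
  unfold blk
  cases uni p.1 p.2 <;> rfl

theorem poly_QF : PT.Poly QF := by
  unfold QF
  exact PT.Poly.flatMap (l := fun Q : QBF => List.range (nv Q.2))
    (f := fun Q i => (blk Q i).flatMap tl)
    (PT.Poly.range (poly_nv.comp (PT.Poly.snd PT.Poly.id))) poly_blk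

theorem poly_bw : PT.Poly (fun p : QBF × ℕ => bw p.1 p.2) := by
  have hφ : PT.Poly (fun p : QBF × ℕ => p.1.2) := PT.Poly.snd (PT.Poly.fst PT.Poly.id)
  have hU : PT.Poly (fun p : QBF × ℕ => UU p.1.2) := poly_UU.comp hφ
  have hw1 : PT.Poly (fun p : QBF × ℕ => W0 p.1.2 p.2 - UU p.1.2) := PT.Poly.sub poly_W0 hU
  refine (PT.Poly.cond poly_uni (PT.Poly.add poly_W0 hw1) hw1).congr (fun p => ?_)
  unfold bw
  cases uni p.1 p.2 <;> rfl

theorem poly_BW : PT.Poly BW := by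
  unfold BW
  exact poly_sum (PT.Poly.map (l := fun Q : QBF => List.range (nv Q.2)) (f := fun Q i => bw Q i)
    (PT.Poly.range (poly_nv.comp (PT.Poly.snd PT.Poly.id))) poly_bw)

theorem poly_kQ : PT.Poly kQ := by
  have hφ : PT.Poly (fun Q : QBF => Q.2) := PT.Poly.snd PT.Poly.id
  exact PT.Poly.add (PT.Poly.add (PT.Poly.length poly_QF) poly_BW)
    (PT.Poly.add ((poly_Z2.comp poly_xors).comp hφ) (poly_TT.comp hφ))

theorem poly_kQD : PT.Poly kQD := PT.Poly.add (PT.Poly.const 1) poly_kQ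

theorem poly_QFD : PT.Poly QFD := by
  have hφ : PT.Poly (fun Q : QBF => Q.2) := PT.Poly.snd PT.Poly.id
  have h0 : PT.Poly (fun Q : QBF => W0 Q.2 0) :=
    poly_W0.comp (PT.Poly.pair PT.Poly.id (PT.Poly.const 0))
  exact PT.Poly.cons (poly_big (PT.Poly.add h0 (poly_UU.comp hφ)) (PT.Poly.const [])) poly_QF

end Pool.Agent.Helper7.CogP
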