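import Mathlib

/-!
Quantified boolean formulas whose matrix is in conjunctive normal form.
-/

set_option autoImplicit false

namespace Pool.Agent.Helper7.CogP

/-- The truth of a quantified formula: `true` is an existential and `false` a universal quantifier,
the first quantifier belongs to the variable `i`, the values of the variables below `i` are given
by `ν`, and the variables after the last quantifier are existentially quantified. -/
def QSat : List Bool → ℕ → (ℕ → Bool) → List (List (Bool × ℕ)) → Prop
  | [], i, ν, φ => ∃ μ : ℕ → Bool, (∀ j < i, μ j = ν j) ∧ ∀ C ∈ φ, ∃ l ∈ C, μ l.2 = l.1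
  | true :: qs, i, ν, φ => ∃ b, QSat qs (i + 1) (Function.update ν i b) φ
  | false :: qs, i, ν, φ => ∀ b, QSat qs (i + 1) (Function.update ν i b) φ

/-- The truth of a quantified formula without free variables. -/
def QTrue (Q : List Bool × List (List (Bool × ℕ))) : Prop := QSat Q.1 0 (fun _ => false) Q.2

end Pool.Agent.Helper7.CogP
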