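import Pool.Agent.Helper7.CogP.Strat
import Pool.Agent.Helper7.CogP.Qbf
import Pool.Agent.Helper7.Cog.Red

/-!
From quantified formulas to forests.
-/

set_option autoImplicit false

namespace Pool.Agent.Helper7.CogP

open Finset Pool.Agent.Helper7.Cog Pool.Agent.Helper86

/-- A satisfying assignment can be extended to the auxiliary variables. -/
theorem score_of_sat' (φ : List (List (Bool × ℕ))) (μ : ℕ → Bool)
    (hμ : ∀ C ∈ φ, ∃ l ∈ C, μ l.2 = l.1) :
    ∃ ν : ℕ → Bool, (∀ x < Qv φ, ν x = μ x) ∧ TT φ ≤ score ν (xors φ) := by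
  set Q := Qv φ with hQ
  have hQ0 : 0 < Q := by rw [hQ]; unfold Qv; omega
  set ν : ℕ → Bool := fun x => if x < Q then μ x else
    decide (∀ i < x % Q, tr μ ((φ.getD (x / Q - 1) []).getD i (true, 0)) = false) with hν
  have hν1 : ∀ x < Q, ν x = μ x := fun x hx => if_pos hx
  have hν2 : ∀ c j, j < Q → ν ((c + 1) * Q + j) =
      decide (∀ i < j, tr μ ((φ.getD c []).getD i (true, 0)) = false) := by
    intro c j hj
    have h1 : ¬ ((c + 1) * Q + j < Q) := by
      have : Q ≤ (c + 1) * Q := Nat.le_mul_of_pos_left _ (Nat.succ_pos c)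
      omega
    have h2 : ((c + 1) * Q + j) % Q = j := by
      rw [Nat.mul_comm, Nat.mul_add_mod, Nat.mod_eq_of_lt hj]
    have h3 : ((c + 1) * Q + j) / Q = c + 1 := by
      rw [Nat.mul_comm, Nat.mul_add_div hQ0, Nat.div_eq_of_lt hj, add_zero]
    rw [hν]
    simp only [if_neg h1, h2, h3, Nat.add_sub_cancel]
  refine ⟨ν, hν1, ?_⟩
  unfold xors TT
  rw [score_flatMap, list_sum_range]
  refine Finset.sum_le_sum fun c hc => ?_
  rw [Finset.mem_range] at hc
  have hCm : φ.getD c [] ∈ φ := by
    rw [List.getD_eq_getElem _ _ hc]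
    exact List.getElem_mem _
  obtain ⟨hlen, hvar⟩ := clause_size hCm
  rw [← hQ] at hlen hvar ⊢
  obtain ⟨l, hl, hl'⟩ := hμ _ hCm
  generalize hC : φ.getD c [] = C at *
  have hν2' : ∀ j, j < Q → ν ((c + 1) * Q + j) =
      decide (∀ i < j, tr μ (C.getD i (true, 0)) = false) := by
    intro j hj
    rw [hν2 c j hj, hC]
  rw [score_clauseX]
  have e0 : ν ((c + 1) * Q) = true := by
    have := hν2' 0 hQ0
    rw [add_zero] at this
    rw [this]
    simp
  have e1 : ν ((c + 1) * Q + C.length) = false := by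
    rw [hν2' _ (by omega), decide_eq_false_iff_not]
    intro hall
    obtain ⟨i, hi, hi'⟩ := List.mem_iff_getElem.mp hl
    have := hall i hi
    rw [List.getD_eq_getElem _ _ hi, hi'] at this
    simp [tr, hl'] at this
  rw [if_pos e0, if_neg (by simp [e1])]
  have h5 : ∑ j ∈ range C.length, 4 ≤ ∑ j ∈ range C.length,
      (if (!ν ((c + 1) * Q + j)) || tr ν (C.getD j (true, 0)) ||
        ν ((c + 1) * Q + j + 1) then 4 else 0) := by
    refine Finset.sum_le_sum fun j hj => ?_
    rw [Finset.mem_range] at hj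
    rw [if_pos]
    have htr : tr ν (C.getD j (true, 0)) = tr μ (C.getD j (true, 0)) := by
      unfold tr
      rw [hν1]
      rw [List.getD_eq_getElem _ _ hj]
      exact hvar _ (List.getElem_mem _)
    rw [htr, add_assoc, hν2' j (by omega), hν2' (j + 1) (by omega)]
    cases ht : tr μ (C.getD j (true, 0)) with
    | true => simp
    | false =>
      by_cases hall : ∀ i < j, tr μ (C.getD i (true, 0)) = false
      · have hall' : ∀ i < j + 1, tr μ (C.getD i (true, 0)) = false := by
          intro i hi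
          rcases Nat.lt_succ_iff_lt_or_eq.mp hi with h | h
          · exact hall i h
          · rw [h, ht]
        rw [decide_eq_true hall']
        simp
      · rw [decide_eq_false hall]
        simp
  rw [Finset.sum_const, Finset.card_range, smul_eq_mul] at h5
  omega

theorem sat_of_score' (ν : ℕ → Bool) (φ : List (List (Bool × ℕ)))
    (h : TT φ ≤ score ν (xors φ)) : ∀ C ∈ φ, ∃ l ∈ C, ν l.2 = l.1 := by
  have h := le_antisymm (score_xors_le ν φ) h
  unfold xors TT at h
  rw [score_flatMap, list_sum_range] at h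
  have h1 := (Finset.sum_eq_sum_iff_of_le (s := range φ.length)
      (f := fun c => score ν (clauseX (Qv φ) c (φ.getD c [])))
      (g := fun c => 2 + 4 * (φ.getD c []).length)
      (fun c _ => score_clauseX_le _ _ _ _)).mp h
  intro C hC
  obtain ⟨c, hc, rfl⟩ := List.mem_iff_getElem.mp hC
  have h2 := h1 c (Finset.mem_range.mpr hc)
  rw [List.getD_eq_getElem _ _ hc] at h2
  exact clause_of_score ν (Qv φ) c _ h2

theorem score_congr {ν ν' : ℕ → Bool} {n : ℕ} (h : ∀ j < n, ν j = ν' j)
    {𝒳 : List (List (Bool × ℕ))} (h𝒳 : ∀ X ∈ 𝒳, ∀ l ∈ X, l.2 < n) : score ν 𝒳 = score ν' 𝒳 := by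
  unfold score
  refine List.countP_congr fun X hX => ?_
  have e : nt ν X = nt ν' X := by
    unfold nt
    refine List.countP_congr fun l hl => ?_
    unfold tr
    rw [h _ (h𝒳 X hX l hl)]
  rw [e]

/-! ### The truth of the formula as a game -/

/-- The variable `i` is universally quantified. -/
def uni (Q : List Bool × List (List (Bool × ℕ))) (i : ℕ) : Bool :=
  decide (i < Qv Q.2) && !(Q.1.getD i true)

/-- The remaining `m` variables `i, i + 1, …` have to be chosen. -/
def T (Q : List Bool × List (List (Bool × ℕ))) : ℕ → ℕ → (ℕ → Bool) → Prop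
  | 0, _, ν => TT Q.2 ≤ score ν (xors Q.2)
  | m + 1, i, ν => if uni Q i = true then ∀ b, T Q m (i + 1) (Function.update ν i b)
      else ∃ b, T Q m (i + 1) (Function.update ν i b)

variable {Q : List Bool × List (List (Bool × ℕ))}

theorem uni_ge {i : ℕ} (h : Qv Q.2 ≤ i) : uni Q i = false := by
  unfold uni
  rw [decide_eq_false (not_lt.mpr h), Bool.false_and]

theorem T_ge : ∀ (m i : ℕ) (ν : ℕ → Bool), m + i = nv Q.2 → Qv Q.2 ≤ i →
    (T Q m i ν ↔ ∃ ν' : ℕ → Bool, (∀ j < i, ν' j = ν j) ∧ TT Q.2 ≤ score ν' (xors Q.2)) := by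
  intro m
  induction m with
  | zero =>
    intro i ν hi _
    constructor
    · intro h
      exact ⟨ν, fun _ _ => rfl, h⟩
    · rintro ⟨ν', h, h'⟩
      show TT Q.2 ≤ score ν (xors Q.2)
      rw [← score_congr h (fun X hX l hl => by
        have := xors_var Q.2 X hX l hl
        omega)]
      exact h'
  | succ m ih =>
    intro i ν hi hQ
    show (if uni Q i = true then _ else _) ↔ _
    rw [if_neg (by rw [uni_ge hQ]; simp)]
    constructor
    · rintro ⟨b, hb⟩
      obtain ⟨ν', h, h'⟩ := (ih (i + 1) _ (by omega) (by omega)).mp hb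
      refine ⟨ν', fun j hj => ?_, h'⟩
      rw [h j (by omega), Function.update_of_ne (by omega)]
    · rintro ⟨ν', h, h'⟩
      refine ⟨ν' i, (ih (i + 1) _ (by omega) (by omega)).mpr ⟨ν', fun j hj => ?_, h'⟩⟩
      rcases Nat.lt_succ_iff_lt_or_eq.mp hj with hj | rfl
      · rw [h j hj, Function.update_of_ne (by omega)]
      · rw [Function.update_self]

theorem T_Qv (m : ℕ) (ν : ℕ → Bool) (hm : m + Qv Q.2 = nv Q.2) :
    T Q m (Qv Q.2) ν ↔ ∀ C ∈ Q.2, ∃ l ∈ C, ν l.2 = l.1 := by
  rw [T_ge m _ ν hm le_rfl]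
  constructor
  · rintro ⟨ν', h, h'⟩ C hC
    obtain ⟨l, hl, e⟩ := sat_of_score' ν' Q.2 h' C hC
    exact ⟨l, hl, by rw [← h _ ((clause_size hC).2 l hl)]; exact e⟩
  · intro h
    obtain ⟨ν', h1, h2⟩ := score_of_sat' Q.2 ν h
    exact ⟨ν', h1, h2⟩

/-- The quantifiers of variables that do not occur do not matter. -/
theorem QSat_ge (φ : List (List (Bool × ℕ))) : ∀ (qs : List Bool) (i : ℕ) (ν : ℕ → Bool),
    Qv φ ≤ i → (QSat qs i ν φ ↔ ∀ C ∈ φ, ∃ l ∈ C, ν l.2 = l.1) := by
  have hup : ∀ (i : ℕ) (ν : ℕ → Bool) (b : Bool), Qv φ ≤ i →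
      ((∀ C ∈ φ, ∃ l ∈ C, Function.update ν i b l.2 = l.1) ↔
        ∀ C ∈ φ, ∃ l ∈ C, ν l.2 = l.1) := by
    intro i ν b hi
    refine forall_congr' fun C => forall_congr' fun hC => exists_congr fun l =>
      and_congr_right fun hl => ?_
    have := (clause_size hC).2 l hl
    rw [Function.update_of_ne (by omega)]
  intro qs
  induction qs with
  | nil =>
    intro i ν hi
    constructor
    · rintro ⟨μ, h, h'⟩ C hC
      obtain ⟨l, hl, e⟩ := h' C hC
      have := (clause_size hC).2 l hl
      exact ⟨l, hl, by rw [← h _ (by omega)]; exact e⟩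
    · intro h
      exact ⟨ν, fun _ _ => rfl, h⟩
  | cons q qs ih =>
    intro i ν hi
    cases q with
    | true =>
      show (∃ b, QSat qs (i + 1) (Function.update ν i b) φ) ↔ _
      simp only [ih (i + 1) _ (by omega), hup i ν _ hi]
      exact ⟨fun ⟨_, h⟩ => h, fun h => ⟨true, h⟩⟩
    | false =>
      show (∀ b, QSat qs (i + 1) (Function.update ν i b) φ) ↔ _
      simp only [ih (i + 1) _ (by omega), hup i ν _ hi]
      exact ⟨fun h => h true, fun h _ => h⟩

theorem QSat_nil_step (φ : List (List (Bool × ℕ))) (i : ℕ) (ν : ℕ → Bool) :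
    QSat [] i ν φ ↔ ∃ b, QSat [] (i + 1) (Function.update ν i b) φ := by
  constructor
  · rintro ⟨μ, h, h'⟩
    refine ⟨μ i, μ, fun j hj => ?_, h'⟩
    rcases Nat.lt_succ_iff_lt_or_eq.mp hj with hj | rfl
    · rw [h j hj, Function.update_of_ne (by omega)]
    · rw [Function.update_self]
  · rintro ⟨b, μ, h, h'⟩
    refine ⟨μ, fun j hj => ?_, h'⟩
    rw [h j (by omega), Function.update_of_ne (by omega)]

theorem T_iff : ∀ (m i : ℕ) (ν : ℕ → Bool), m + i = nv Q.2 → i ≤ Qv Q.2 →
    (T Q m i ν ↔ QSat (Q.1.drop i) i ν Q.2) := by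
  intro m
  induction m with
  | zero =>
    intro i ν hi hQ
    have h1 : Qv Q.2 ≤ nv Q.2 := by
      unfold nv
      exact Nat.le_mul_of_pos_left _ (Nat.succ_pos _)
    have h2 : i = Qv Q.2 := by omega
    subst h2
    rw [T_Qv 0 ν hi, QSat_ge _ _ _ _ le_rfl]
  | succ m ih =>
    intro i ν hi hQ
    rcases Nat.lt_or_ge i (Qv Q.2) with hlt | hge
    · have ih' := fun b => ih (i + 1) (Function.update ν i b) (by omega) (by omega)
      show (if uni Q i = true then _ else _) ↔ _
      rcases Nat.lt_or_ge i Q.1.length with hl | hl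
      · have hd : Q.1.drop i = Q.1[i] :: Q.1.drop (i + 1) := List.drop_eq_getElem_cons hl
        have hu : uni Q i = !Q.1[i] := by
          unfold uni
          rw [decide_eq_true hlt, Bool.true_and, List.getD_eq_getElem _ _ hl]
        rw [hd]
        cases hb : Q.1[i] with
        | true =>
          rw [hb] at hu
          rw [if_neg (by rw [hu]; simp)]
          exact exists_congr fun b => ih' b
        | false =>
          rw [hb] at hu
          rw [if_pos (by rw [hu]; rfl)]
          exact forall_congr' fun b => ih' b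
      · have hd : Q.1.drop i = [] := List.drop_eq_nil_of_le hl
        have hd' : Q.1.drop (i + 1) = [] := List.drop_eq_nil_of_le (by omega)
        have hu : uni Q i = false := by
          unfold uni
          rw [List.getD_eq_default _ _ hl]
          simp
        rw [hd, if_neg (by rw [hu]; simp), QSat_nil_step]
        rw [hd'] at ih'
        exact exists_congr fun b => ih' b
    · have h2 : i = Qv Q.2 := by omega
      subst h2
      rw [T_Qv (m + 1) ν hi, QSat_ge _ _ _ _ le_rfl]

theorem T_start : T Q (nv Q.2) 0 (fun _ => false) ↔ QTrue Q := by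
  rw [T_iff (nv Q.2) 0 _ (add_zero _) (Nat.zero_le _)]
  rfl

/-! ### The gadgets -/

/-- The unit of the large weights. -/
def UU (φ : List (List (Bool × ℕ))) : ℕ := 4 * Z2 (xors φ) + TT φ

/-- The largest weight of the variable `i`. -/
def W0 (φ : List (List (Bool × ℕ))) (i : ℕ) : ℕ := 3 * (nv φ - i) * UU φ

/-- The items of the variable `i`. -/
def blk (Q : List Bool × List (List (Bool × ℕ))) (i : ℕ) : List It :=
  if uni Q i = true then
    [.one (W0 Q.2 i) [], .pair (W0 Q.2 i - UU Q.2) (cts (xors Q.2) i true) (cts (xors Q.2) i false),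
      .one (W0 Q.2 i - 2 * UU Q.2) []]
  else [.pair (W0 Q.2 i - UU Q.2) (cts (xors Q.2) i true) (cts (xors Q.2) i false)]

/-- The sum of the weights that count. -/
def bw (Q : List Bool × List (List (Bool × ℕ))) (i : ℕ) : ℕ :=
  if uni Q i = true then W0 Q.2 i + (W0 Q.2 i - UU Q.2) else W0 Q.2 i - UU Q.2

/-- The items of the variables `i, …, i + m - 1`. -/
def items (Q : List Bool × List (List (Bool × ℕ))) (i m : ℕ) : List It :=
  (List.range' i m).flatMap (blk Q)

theorem items_succ (Q : List Bool × List (List (Bool × ℕ))) (i m : ℕ) :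
    items Q i (m + 1) = blk Q i ++ items Q (i + 1) m := by
  unfold items
  rw [List.range'_succ, List.flatMap_cons]

theorem content_succ (c : ℕ → Bool → List ℕ) (i : ℕ) (ν : ℕ → Bool) (b : Bool) :
    content (i + 1) c (Function.update ν i b) = content i c ν + (c i b : Multiset ℕ) := by
  unfold content
  rw [Finset.sum_range_succ, Function.update_self]
  congr 1
  refine Finset.sum_congr rfl fun j hj => ?_
  rw [Finset.mem_range] at hj
  rw [Function.update_of_ne (by omega)]

theorem Val_blk (B : ℕ) (i : ℕ) (gs : List It) (M : Multiset ℕ) :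
    Val B true (blk Q i ++ gs) M = if uni Q i = true then
      min (Val B true gs (M + (cts (xors Q.2) i true : Multiset ℕ)))
        (Val B true gs (M + (cts (xors Q.2) i false : Multiset ℕ)))
      else max (Val B true gs (M + (cts (xors Q.2) i true : Multiset ℕ)))
        (Val B true gs (M + (cts (xors Q.2) i false : Multiset ℕ))) := by
  unfold blk
  by_cases hu : uni Q i = true
  · rw [if_pos hu, if_pos hu]
    show min (Val B true gs (M + (([] : List ℕ) : Multiset ℕ) + _))
      (Val B true gs (M + (([] : List ℕ) : Multiset ℕ) + _)) = _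
    rw [Multiset.coe_nil, add_zero]
  · rw [if_neg hu, if_neg hu]
    rfl

theorem up_large {B B' : ℕ} (hB : B ≤ B') {E : Multiset ℕ} (hE : ∀ x ∈ E, x ≤ B) :
    up B' E = up B E := by
  unfold up
  refine (Finset.sum_subset (Finset.range_subset_range.mpr hB) fun t _ ht => ?_).symm
  rw [Finset.mem_range, not_lt] at ht
  have h0 : cnt E t = 0 := cnt_eq_zero fun x hx => (hE x hx).trans ht
  rw [h0]
  rfl

theorem mem_content {n : ℕ} {c : ℕ → Bool → List ℕ} {ν : ℕ → Bool} {x : ℕ}
    (h : x ∈ content n c ν) : ∃ i b, x ∈ c i b := by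
  unfold content at h
  rw [Multiset.mem_sum] at h
  obtain ⟨i, -, h⟩ := h
  exact ⟨i, _, h⟩

theorem val_iff {B : ℕ} (hB : 2 * (xors Q.2).length ≤ B) : ∀ (m i : ℕ) (ν : ℕ → Bool),
    i + m = nv Q.2 →
    (Z2 (xors Q.2) + TT Q.2 ≤ Val B true (items Q i m) (content i (cts (xors Q.2)) ν) ↔
      T Q m i ν) := by
  intro m
  induction m with
  | zero =>
    intro i ν hi
    have hi' : i = nv Q.2 := by omega
    subst hi'
    show _ ≤ up B _ ↔ TT Q.2 ≤ score ν (xors Q.2)
    rw [up_large hB (fun x hx => by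
      obtain ⟨i, b, h⟩ := mem_content hx
      exact cts_bound _ i b x h), up_content _ _ _ (xors_var Q.2)]
    omega
  | succ m ih =>
    intro i ν hi
    rw [items_succ, Val_blk]
    have ih' : ∀ b, (Z2 (xors Q.2) + TT Q.2 ≤ Val B true (items Q (i + 1) m)
        (content i (cts (xors Q.2)) ν + (cts (xors Q.2) i b : Multiset ℕ)) ↔
          T Q m (i + 1) (Function.update ν i b)) := by
      intro b
      rw [← content_succ]
      exact ih (i + 1) _ (by omega)
    show _ ↔ (if uni Q i = true then _ else _)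
    by_cases hu : uni Q i = true
    · rw [if_pos hu, if_pos hu, le_min_iff, ih', ih']
      exact ⟨fun h b => by cases b; exact h.2; exact h.1, fun h => ⟨h true, h false⟩⟩
    · rw [if_neg hu, if_neg hu, le_max_iff, ih', ih']
      constructor
      · rintro (h | h)
        · exact ⟨true, h⟩
        · exact ⟨false, h⟩
      · rintro ⟨b, h⟩
        cases b
        · exact Or.inr h
        · exact Or.inl h

theorem W0_ge {φ : List (List (Bool × ℕ))} {i : ℕ} (hi : i < nv φ) : 3 * UU φ ≤ W0 φ i := by
  unfold W0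
  refine Nat.mul_le_mul_right _ ?_
  omega

theorem W0_le {φ : List (List (Bool × ℕ))} (i : ℕ) : W0 φ i ≤ W0 φ 0 := by
  unfold W0
  refine Nat.mul_le_mul_right _ ?_
  omega

theorem W0_gap {φ : List (List (Bool × ℕ))} {i j : ℕ} (hij : i < j) (hj : j < nv φ) :
    W0 φ j + 3 * UU φ ≤ W0 φ i := by
  unfold W0
  have h2 : 3 * (nv φ - j + 1) * UU φ ≤ 3 * (nv φ - i) * UU φ :=
    Nat.mul_le_mul_right _ (by omega)
  have h3 : 3 * (nv φ - j + 1) * UU φ = 3 * (nv φ - j) * UU φ + 3 * UU φ := by ring
  omega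

theorem mem_blk_w {i x : ℕ} (hi : i < nv Q.2) (hx : x ∈ (blk Q i).map It.w) :
    x ≤ W0 Q.2 i ∧ W0 Q.2 i ≤ x + 2 * UU Q.2 := by
  have h1 := W0_ge hi
  unfold blk at hx
  split_ifs at hx
  · simp only [List.map_cons, List.map_nil, List.mem_cons, List.not_mem_nil, or_false, It.w] at hx
    omega
  · simp only [List.map_cons, List.map_nil, List.mem_cons, List.not_mem_nil, or_false, It.w] at hx
    omega

theorem tot_blk (i : ℕ) : tot (blk Q i)
    = (cts (xors Q.2) i true).sum + (cts (xors Q.2) i false).sum := by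
  unfold blk
  split_ifs
  · simp [tot, It.tot]
  · simp [tot, It.tot]

theorem content_const (c : ℕ → Bool → List ℕ) (n : ℕ) (b : Bool) :
    (content n c fun _ => b).sum = ∑ i ∈ range n, (c i b).sum := by
  unfold content
  induction n with
  | zero => rfl
  | succ n ih => rw [Finset.sum_range_succ, Finset.sum_range_succ, Multiset.sum_add, ih,
      Multiset.sum_coe]

theorem tot_items : tot (items Q 0 (nv Q.2)) = 4 * Z2 (xors Q.2) := by
  have h1 : ∀ m i, tot (items Q i m) = ∑ j ∈ Finset.Ico i (i + m),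
      ((cts (xors Q.2) j true).sum + (cts (xors Q.2) j false).sum) := by
    intro m
    induction m with
    | zero => intro i; simp [items, tot]
    | succ m ih =>
      intro i
      rw [items_succ, tot_append, tot_blk, ih, show i + (m + 1) = i + 1 + m by ring,
        Finset.sum_eq_sum_Ico_succ_bot (a := i) (b := i + 1 + m) (by omega)]
  rw [h1, zero_add, Nat.Ico_zero_eq_range, Finset.sum_add_distrib, ← content_const,
    ← content_const, content_sum _ _ _ (xors_var Q.2), content_sum _ _ _ (xors_var Q.2)]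
  ring

theorem Inv_items {B : ℕ} (hB : W0 Q.2 0 ≤ B) (hB' : UU Q.2 ≤ B) :
    Inv B (UU Q.2) (items Q 0 (nv Q.2)) 0 := by
  have hmem : ∀ i ∈ List.range' 0 (nv Q.2), i < nv Q.2 := by
    intro i hi
    rw [List.mem_range'_1] at hi
    omega
  refine ⟨?_, ?_, ?_, ?_, hB'⟩
  · unfold items
    rw [List.map_flatMap, List.pairwise_flatMap]
    constructor
    · intro i hi
      have h1 := W0_ge (hmem i hi)
      unfold blk
      split_ifs
      · simp only [List.map_cons, List.map_nil, It.w, List.pairwise_cons, List.mem_cons,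
          List.not_mem_nil, or_false, forall_eq_or_imp, forall_eq, List.Pairwise.nil,
          false_imp_iff, implies_true, and_true]
        omega
      · simp
    · refine List.Pairwise.imp_of_mem (R := fun i j => i < j) ?_ List.pairwise_lt_range'
      intro i j hi hj hij x hx y hy
      have h1 := mem_blk_w (hmem i hi) hx
      have h2 := mem_blk_w (hmem j hj) hy
      have h3 := W0_gap hij (hmem j hj)
      omega
  · intro x hx
    unfold items at hx
    rw [List.map_flatMap, List.mem_flatMap] at hx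
    obtain ⟨i, hi, hx⟩ := hx
    have h1 := mem_blk_w (hmem i hi) hx
    have h2 := W0_ge (hmem i hi)
    have h3 := W0_le (φ := Q.2) i
    omega
  · intro it hit c r hr
    unfold items at hit
    rw [List.mem_flatMap] at hit
    obtain ⟨i, hi, hit⟩ := hit
    have h1 := mem_blk_w (hmem i hi) (List.mem_map_of_mem hit)
    have h2 := W0_ge (hmem i hi)
    have h3 : c.length ≤ 2 * Z2 (xors Q.2) := by
      have h4 : c = [] ∨ ∃ b, c = cts (xors Q.2) i b := by
        unfold blk at hit
        split_ifs at hit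
        · simp only [List.mem_cons, List.not_mem_nil, or_false] at hit
          rcases hit with rfl | rfl | rfl
          · cases hr; exact Or.inl rfl
          · cases hr
            · exact Or.inr ⟨true, rfl⟩
            · exact Or.inr ⟨false, rfl⟩
          · cases hr; exact Or.inl rfl
        · simp only [List.mem_cons, List.not_mem_nil, or_false] at hit
          subst hit
          cases hr
          · exact Or.inr ⟨true, rfl⟩
          · exact Or.inr ⟨false, rfl⟩
      rcases h4 with rfl | ⟨b, rfl⟩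
      · exact Nat.zero_le _
      · exact cts_length _ i b
    have h5 : 2 * Z2 (xors Q.2) ≤ UU Q.2 := by unfold UU; omega
    omega
  · rw [tot_items]
    show _ + 0 ≤ _
    unfold UU
    omega

/-- The sum of the weights that count. -/
theorem up_items {B : ℕ} (hB : W0 Q.2 0 ≤ B) : ∀ m i, i + m = nv Q.2 →
    up B (Ew (items Q i m)) = ∑ j ∈ Finset.Ico i (i + m), bw Q j := by
  have hx : ∀ m i, i + m = nv Q.2 → ∀ x ∈ Ew (items Q i m), i ≠ nv Q.2 ∧ x ≤ W0 Q.2 i := by
    intro m i hm x hx
    have h1 := mem_Ew hx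
    unfold items at h1
    rw [List.map_flatMap, List.mem_flatMap] at h1
    obtain ⟨j, hj, h1⟩ := h1
    rw [List.mem_range'_1] at hj
    have h2 := mem_blk_w (by omega) h1
    refine ⟨by omega, ?_⟩
    rcases Nat.lt_or_ge i j with h | h
    · have := W0_gap (φ := Q.2) h (by omega)
      omega
    · have : j = i := by omega
      rw [this] at h2
      exact h2.1
  intro m
  induction m with
  | zero =>
    intro i _
    rw [add_zero, Finset.Ico_self, Finset.sum_empty]
    exact up_zero B
  | succ m ih =>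
    intro i hi
    rw [items_succ, Finset.sum_eq_sum_Ico_succ_bot (by omega), Ew_append]
    have ih' := ih (i + 1) (by omega)
    have h0 := W0_ge (φ := Q.2) (i := i) (by omega)
    have h1 := W0_le (φ := Q.2) i
    have hlt : ∀ t, W0 Q.2 i - 2 * UU Q.2 ≤ t → cnt (Ew (items Q (i + 1) m)) t = 0 := by
      intro t ht
      refine cnt_eq_zero fun x hxm => ?_
      have h2 := hx m (i + 1) (by omega) x hxm
      have h3 := W0_gap (φ := Q.2) (i := i) (j := i + 1) (by omega) (by omega)
      omega
    rw [show i + (m + 1) = i + 1 + m by ring, ← ih']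
    unfold blk bw
    split_ifs with hu
    · have e : Ew [It.one (W0 Q.2 i) [], It.pair (W0 Q.2 i - UU Q.2) (cts (xors Q.2) i true)
          (cts (xors Q.2) i false), It.one (W0 Q.2 i - 2 * UU Q.2) []]
          + Ew (items Q (i + 1) m) = W0 Q.2 i ::ₘ (W0 Q.2 i - UU Q.2) ::ₘ (W0 Q.2 i - UU Q.2) ::ₘ
            (W0 Q.2 i - 2 * UU Q.2) ::ₘ Ew (items Q (i + 1) m) := by
        rw [Ew_cons, Ew_cons, Ew_cons, Ew_nil, add_zero]
        show ({_} : Multiset ℕ) + (({_, _} : Multiset ℕ) + {_}) + _ = _
        rw [Multiset.insert_eq_cons]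
        simp only [Multiset.cons_add, Multiset.singleton_add]
      rw [e, up_even (by omega), dn_two (by omega), dn_even]
      · omega
      · intro t ht
        rw [hlt t ht]
      · intro t ht
        rw [cnt_cons, cnt_cons, cnt_cons, hlt t (by omega), if_neg (by omega), if_neg (by omega)]
    · have e : Ew [It.pair (W0 Q.2 i - UU Q.2) (cts (xors Q.2) i true)
          (cts (xors Q.2) i false)] + Ew (items Q (i + 1) m)
          = (W0 Q.2 i - UU Q.2) ::ₘ (W0 Q.2 i - UU Q.2) ::ₘ Ew (items Q (i + 1) m) := by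
        rw [Ew_cons, Ew_nil, add_zero]
        show ({_, _} : Multiset ℕ) + _ = _
        rw [Multiset.insert_eq_cons]
        simp only [Multiset.cons_add, Multiset.singleton_add]
      rw [e, up_two (by omega)]

/-! ### The forests -/

/-- The trees of an item. -/
def tl : It → List L
  | .pair w a b => [.big w a, .big w b]
  | .one w c => [.big w c]

theorem coe_tl (gs : List It) : (gs.flatMap tl : Multiset L) = Tr gs := by
  induction gs with
  | nil => rfl
  | cons it gs ih =>
    rw [List.flatMap_cons, Tr_cons, ← Multiset.coe_add, ih]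
    cases it <;> rfl

/-- The forest of the formula. -/
def QF (Q : List Bool × List (List (Bool × ℕ))) : List L :=
  (List.range (nv Q.2)).flatMap fun i => (blk Q i).flatMap tl

theorem QF_eq (Q : List Bool × List (List (Bool × ℕ))) :
    QF Q = (items Q 0 (nv Q.2)).flatMap tl := by
  unfold QF items
  rw [List.flatMap_assoc, List.range_eq_range']

/-- The sum of the weights that count. -/
def BW (Q : List Bool × List (List (Bool × ℕ))) : ℕ :=
  ((List.range (nv Q.2)).map fun i => bw Q i).sum

/-- The number of the formula. -/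
def kQ (Q : List Bool × List (List (Bool × ℕ))) : ℕ :=
  (QF Q).length + BW Q + (Z2 (xors Q.2) + TT Q.2)

/-- The forest for the game that starts with Dominator. -/
def QFD (Q : List Bool × List (List (Bool × ℕ))) : List L :=
  .big (W0 Q.2 0 + UU Q.2) [] :: QF Q

/-- The number for the game that starts with Dominator. -/
def kQD (Q : List Bool × List (List (Bool × ℕ))) : ℕ := 1 + kQ Q

theorem AS_QF (Q : List Bool × List (List (Bool × ℕ))) (B : ℕ) (hB : W0 Q.2 0 ≤ B)
    (hB' : UU Q.2 ≤ B) (k : ℕ) : AS k (QF Q : Multiset L) ↔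
      (QF Q).length + BW Q + Val B true (items Q 0 (nv Q.2)) 0 ≤ k := by
  have h1 : (QF Q : Multiset L) = Tr (items Q 0 (nv Q.2)) := by
    rw [QF_eq, coe_tl]
  have h2 : (QF Q).length = (Tr (items Q 0 (nv Q.2))).card := by
    rw [← h1, Multiset.coe_card]
  rw [h1, AS_iff (Inv_items hB hB'), h2, up_items hB _ _ (zero_add _), zero_add,
    Nat.Ico_zero_eq_range]
  unfold BW
  rw [list_sum_range]

theorem AD_QFD (Q : List Bool × List (List (Bool × ℕ))) (B : ℕ)
    (hB : W0 Q.2 0 + UU Q.2 ≤ B) (k : ℕ) : AD k (QFD Q : Multiset L) ↔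
      1 + ((QF Q).length + BW Q + Val B true (items Q 0 (nv Q.2)) 0) ≤ k := by
  have hI := Inv_items (Q := Q) (B := B) (by omega) (by omega)
  have h1 : (QFD Q : Multiset L) = Tr (.one (W0 Q.2 0 + UU Q.2) [] :: items Q 0 (nv Q.2)) := by
    rw [← coe_tl, List.flatMap_cons, ← QF_eq]
    rfl
  have hw : ∀ x ∈ (items Q 0 (nv Q.2)).map It.w, x ≤ W0 Q.2 0 := by
    intro x hx
    unfold items at hx
    rw [List.map_flatMap, List.mem_flatMap] at hx
    obtain ⟨i, hi, hx⟩ := hx
    rw [List.mem_range'_1] at hi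
    have h1 := mem_blk_w (by omega) hx
    have h3 := W0_le (φ := Q.2) i
    omega
  have hI' : Inv B (UU Q.2) (.one (W0 Q.2 0 + UU Q.2) [] :: items Q 0 (nv Q.2)) 0 := by
    refine ⟨?_, ?_, ?_, ?_, hI.KB⟩
    · rw [List.map_cons, List.pairwise_cons]
      refine ⟨fun x hx => ?_, hI.sorted⟩
      have := hw x hx
      show x + UU Q.2 ≤ W0 Q.2 0 + UU Q.2
      omega
    · intro x hx
      rw [List.map_cons, List.mem_cons] at hx
      rcases hx with rfl | hx
      · show UU Q.2 ≤ W0 Q.2 0 + UU Q.2 ∧ W0 Q.2 0 + UU Q.2 ≤ B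
        omega
      · exact hI.big x hx
    · intro it hit c r hr
      rcases List.mem_cons.mp hit with rfl | hit
      · cases hr
        exact Nat.zero_le _
      · exact hI.len it hit c r hr
    · rw [tot_cons]
      have := hI.small
      show 0 + _ + _ ≤ _
      omega
  have h2 : (Tr (.one (W0 Q.2 0 + UU Q.2) [] :: items Q 0 (nv Q.2))).card
      = (QF Q).length + 1 := by
    rw [← h1, Multiset.coe_card]
    rfl
  have h3 : dn B (Ew (.one (W0 Q.2 0 + UU Q.2) [] :: items Q 0 (nv Q.2))) = BW Q := by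
    have e : Ew (.one (W0 Q.2 0 + UU Q.2) [] :: items Q 0 (nv Q.2))
        = (W0 Q.2 0 + UU Q.2) ::ₘ Ew (items Q 0 (nv Q.2)) := by
      rw [Ew_cons]
      exact Multiset.singleton_add _ _
    rw [e, dn_even, up_items (by omega) _ _ (zero_add _), zero_add, Nat.Ico_zero_eq_range]
    · unfold BW
      rw [list_sum_range]
    · intro t ht
      rw [cnt_eq_zero fun x hx => ?_]
      have := hw x (mem_Ew hx)
      omega
  rw [h1, AD_iff hI', h2, h3]
  show _ + _ + Val B true (items Q 0 (nv Q.2)) 0 ≤ k ↔ _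
  constructor <;> intro h <;> omega

/-- A common bound. -/
def BB (Q : List Bool × List (List (Bool × ℕ))) : ℕ :=
  W0 Q.2 0 + UU Q.2 + 2 * (xors Q.2).length

theorem val_QTrue (Q : List Bool × List (List (Bool × ℕ))) :
    Z2 (xors Q.2) + TT Q.2 ≤ Val (BB Q) true (items Q 0 (nv Q.2)) 0 ↔ QTrue Q := by
  rw [← T_start, ← val_iff (B := BB Q) (by unfold BB; omega) (nv Q.2) 0 _ (zero_add _)]
  rfl

theorem qtrue_iff_S (Q : List Bool × List (List (Bool × ℕ))) :
    QTrue Q ↔ (kQ Q : ℕ∞) ≤ gammaMBS (gr (QF Q)) := by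
  rw [le_gammaMBS_iff, ← val_QTrue]
  have h : ∀ j, DomWinsS (gr (QF Q)) j ∅ ∅ ↔
      (QF Q).length + BW Q + Val (BB Q) true (items Q 0 (nv Q.2)) 0 ≤ j := fun j => by
    rw [stWins_iff, AS_QF Q (BB Q) (by unfold BB; omega) (by unfold BB; omega)]
  constructor
  · intro h1 j hj h2
    rw [h] at h2
    unfold kQ at hj
    omega
  · intro h1
    by_contra hc
    refine h1 ((QF Q).length + BW Q + Val (BB Q) true (items Q 0 (nv Q.2)) 0) ?_
      ((h _).mpr le_rfl)
    unfold kQ
    omega

theorem qtrue_iff_D (Q : List Bool × List (List (Bool × ℕ))) :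
    QTrue Q ↔ (kQD Q : ℕ∞) ≤ gammaMB (gr (QFD Q)) := by
  rw [le_gammaMB_iff, ← val_QTrue]
  have h : ∀ j, DomWins (gr (QFD Q)) j ∅ ∅ ↔
      1 + ((QF Q).length + BW Q + Val (BB Q) true (items Q 0 (nv Q.2)) 0) ≤ j := fun j => by
    rw [domWins_iff, AD_QFD Q (BB Q) (by unfold BB; omega)]
  constructor
  · intro h1 j hj h2
    rw [h] at h2
    unfold kQD kQ at hj
    omega
  · intro h1
    by_contra hc
    refine h1 (1 + ((QF Q).length + BW Q + Val (BB Q) true (items Q 0 (nv Q.2)) 0)) ?_
      ((h _).mpr le_rfl)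
    unfold kQD kQ
    omega

theorem finite_QS (Q : List Bool × List (List (Bool × ℕ))) : gammaMBS (gr (QF Q)) ≠ ⊤ := by
  have h : DomWinsS (gr (QF Q))
      ((QF Q).length + BW Q + Val (BB Q) true (items Q 0 (nv Q.2)) 0) ∅ ∅ := by
    rw [stWins_iff, AS_QF Q (BB Q) (by unfold BB; omega) (by unfold BB; omega)]
  intro htop
  have h2 : gammaMBS (gr (QF Q)) ≤ _ := sInf_le ⟨_, rfl, h⟩
  rw [htop, top_le_iff] at h2
  exact ENat.natCast_ne_top _ h2

theorem finite_QD (Q : List Bool × List (List (Bool × ℕ))) : gammaMB (gr (QFD Q)) ≠ ⊤ := by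
  have h : DomWins (gr (QFD Q))
      (1 + ((QF Q).length + BW Q + Val (BB Q) true (items Q 0 (nv Q.2)) 0)) ∅ ∅ := by
    rw [domWins_iff, AD_QFD Q (BB Q) (by unfold BB; omega)]
  intro htop
  have h2 : gammaMB (gr (QFD Q)) ≤ _ := sInf_le ⟨_, rfl, h⟩
  rw [htop, top_le_iff] at h2
  exact ENat.natCast_ne_top _ h2

end Pool.Agent.Helper7.CogP
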