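import Pool.Agent.Helper7.CogP.QPoly

/-!
Long runs of cellular automata as quantified formulas.
-/

set_option autoImplicit false

namespace Pool.Agent.Helper7.CogP

open Pool.Agent.Helper86

/-! ### Blocks of existential quantifiers -/

theorem QSat_congr (φ : List (List (Bool × ℕ))) : ∀ (qs : List Bool) (i : ℕ) (ν ν' : ℕ → Bool),
    (∀ j < i, ν j = ν' j) → QSat qs i ν φ → QSat qs i ν' φ := by
  have hup : ∀ (i : ℕ) (ν ν' : ℕ → Bool) (b : Bool), (∀ j < i, ν j = ν' j) →
      ∀ j < i + 1, Function.update ν i b j = Function.update ν' i b j := by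
    intro i ν ν' b h j hj
    by_cases hji : j = i
    · rw [hji, Function.update_self, Function.update_self]
    · rw [Function.update_of_ne hji, Function.update_of_ne hji]
      exact h j (by omega)
  intro qs
  induction qs with
  | nil =>
    rintro i ν ν' h ⟨μ, h1, h2⟩
    exact ⟨μ, fun j hj => (h1 j hj).trans (h j hj), h2⟩
  | cons q qs ih =>
    intro i ν ν' h
    cases q with
    | true =>
      rintro ⟨b, hb⟩
      exact ⟨b, ih (i + 1) _ _ (hup i ν ν' b h) hb⟩
    | false =>
      intro hb b
      exact ih (i + 1) _ _ (hup i ν ν' b h) (hb b)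

theorem QSat_replicate (φ : List (List (Bool × ℕ))) (qs : List Bool) : ∀ (m i : ℕ)
    (ν : ℕ → Bool), QSat (List.replicate m true ++ qs) i ν φ ↔
      ∃ ν' : ℕ → Bool, (∀ j < i, ν' j = ν j) ∧ QSat qs (i + m) ν' φ := by
  intro m
  induction m with
  | zero =>
    intro i ν
    constructor
    · intro h
      exact ⟨ν, fun _ _ => rfl, h⟩
    · rintro ⟨ν', h, h'⟩
      exact QSat_congr φ qs i ν' ν h h'
  | succ m ih =>
    intro i ν
    show (∃ b, QSat (List.replicate m true ++ qs) (i + 1) (Function.update ν i b) φ) ↔ _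
    constructor
    · rintro ⟨b, hb⟩
      obtain ⟨ν', h, h'⟩ := (ih _ _).mp hb
      refine ⟨ν', fun j hj => ?_, ?_⟩
      · rw [h j (by omega), Function.update_of_ne (by omega)]
      · rwa [show i + (m + 1) = i + 1 + m by ring]
    · rintro ⟨ν', h, h'⟩
      refine ⟨ν' i, (ih _ _).mpr ⟨ν', fun j hj => ?_, ?_⟩⟩
      · by_cases hji : j = i
        · rw [hji, Function.update_self]
        · rw [Function.update_of_ne hji]
          exact h j (by omega)
      · rwa [show i + 1 + m = i + (m + 1) by ring]

/-! ### The formula -/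

/-- The quantifiers of `m` levels. -/
def preM (w : ℕ) : ℕ → List Bool
  | 0 => []
  | m + 1 => List.replicate (3 * w) true ++ false :: preM w m

theorem preM_eq (w m : ℕ) :
    preM w m = (List.range m).flatMap fun _ => List.replicate (3 * w) true ++ [false] := by
  induction m with
  | zero => rfl
  | succ m ih =>
    rw [List.range_succ_eq_map, List.flatMap_cons, List.flatMap_map, ← ih]
    show _ = (_ ++ [false]) ++ _
    rw [List.append_assoc]
    rfl

/-- The width of a level. -/
def st (w : ℕ) : ℕ := 3 * w + 1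

/-- The initial clauses. -/
def initC (A R : ℕ) (ini : List ℕ) (cb : ℕ) : List (List (Bool × ℕ)) :=
  (List.range (R + 1)).map fun j => [(true, j * A + ini.getD j cb)]

/-- The rejection clauses. -/
def rejC (A w : ℕ) (rej : List ℕ) : List (List (Bool × ℕ)) :=
  rej.map fun a => [(false, w + (A + a))]

/-- The clauses between the levels. -/
def linkC (w K : ℕ) : List (List (Bool × ℕ)) :=
  (List.range K).flatMap fun l => (List.range w).flatMap fun i =>
    [[(true, l * st w + 3 * w), (false, l * st w + i), (true, (l + 1) * st w + i)],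
      [(true, l * st w + 3 * w), (false, (l + 1) * st w + w + i), (true, l * st w + 2 * w + i)],
      [(false, l * st w + 3 * w), (false, l * st w + 2 * w + i), (true, (l + 1) * st w + i)],
      [(false, l * st w + 3 * w), (false, (l + 1) * st w + w + i), (true, l * st w + w + i)]]

/-- The clauses of one step. -/
def ruleC (A R w K : ℕ) (tuples : List (ℕ × ℕ × ℕ × ℕ × ℕ)) : List (List (Bool × ℕ)) :=
  (List.range R).flatMap fun j => tuples.map fun u =>
    [(false, K * st w + (0 * A + u.1)), (false, K * st w + ((j - 1) * A + u.2.1)),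
      (false, K * st w + (j * A + u.2.2.1)), (false, K * st w + ((j + 1) * A + u.2.2.2.1)),
      (true, K * st w + w + (j * A + u.2.2.2.2))]

/-- The matrix of the formula. -/
def savM (A R w K : ℕ) (ini : List ℕ) (cb : ℕ) (rej : List ℕ)
    (tuples : List (ℕ × ℕ × ℕ × ℕ × ℕ)) : List (List (Bool × ℕ)) :=
  initC A R ini cb ++ (rejC A w rej ++ (linkC w K ++ (ruleC A R w K tuples ++
    [[(true, K * st w + w + (R * A + cb))]])))

section
variable {C : Type} (rule : C → C → C → C → C) (F : Set C) (code : C → ℕ) (A R K : ℕ)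
  (ρ : ℕ → ℕ → C) (blank : C) (acc : C → Prop) (ini : List ℕ) (rej : List ℕ)
  (tuples : List (ℕ × ℕ × ℕ × ℕ × ℕ))

/-- The block at `o` says at least that the row at time `t` is what it is. -/
def Cov (μ : ℕ → Bool) (o t : ℕ) : Prop := ∀ j ≤ R, μ (o + (j * A + code (ρ t j))) = true

/-- The bits of the row at time `t`. -/
def bit (t i : ℕ) : Bool := decide (i % A = code (ρ t (i / A)))

/-- The time at which level `l` starts. -/
def tm (β : ℕ → Bool) (l : ℕ) : ℕ :=
  ∑ i ∈ Finset.range l, if β i = true then 2 ^ (K - i - 1) else 0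

/-- The intended assignment. -/
def asg (w : ℕ) (β : ℕ → Bool) (x : ℕ) : Bool :=
  if x % st w < w then bit code A ρ (tm K β (x / st w)) (x % st w)
  else if x % st w < 2 * w then
    bit code A ρ (tm K β (x / st w) + 2 ^ (K - x / st w)) (x % st w - w)
  else if x % st w < 3 * w then
    bit code A ρ (tm K β (x / st w) + 2 ^ (K - x / st w - 1)) (x % st w - 2 * w)
  else β (x / st w)

variable {rule F code A R K ρ blank acc ini rej tuples}

theorem st_div {w l r : ℕ} (hr : r < st w) : (l * st w + r) / st w = l := by
  rw [Nat.mul_comm, Nat.mul_add_div (by unfold st; omega), Nat.div_eq_of_lt hr, add_zero]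

theorem st_mod {w l r : ℕ} (hr : r < st w) : (l * st w + r) % st w = r := by
  rw [Nat.mul_comm, Nat.mul_add_mod, Nat.mod_eq_of_lt hr]

theorem asg_X {w : ℕ} (β : ℕ → Bool) {l i : ℕ} (hi : i < w) :
    asg code A K ρ w β (l * st w + i) = bit code A ρ (tm K β l) i := by
  have h : i < st w := by unfold st; omega
  unfold asg
  rw [st_mod h, st_div h, if_pos hi]

theorem asg_Y {w : ℕ} (β : ℕ → Bool) {l i : ℕ} (hi : i < w) :
    asg code A K ρ w β (l * st w + w + i) = bit code A ρ (tm K β l + 2 ^ (K - l)) i := by
  have h : w + i < st w := by unfold st; omega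
  unfold asg
  rw [Nat.add_assoc, st_mod h, st_div h, if_neg (by omega), if_pos (by omega),
    Nat.add_sub_cancel_left]

theorem asg_M {w : ℕ} (β : ℕ → Bool) {l i : ℕ} (hi : i < w) :
    asg code A K ρ w β (l * st w + 2 * w + i)
      = bit code A ρ (tm K β l + 2 ^ (K - l - 1)) i := by
  have h : 2 * w + i < st w := by unfold st; omega
  unfold asg
  rw [Nat.add_assoc, st_mod h, st_div h, if_neg (by omega), if_neg (by omega), if_pos (by omega),
    Nat.add_sub_cancel_left]

theorem asg_b {w : ℕ} (β : ℕ → Bool) (l : ℕ) :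
    asg code A K ρ w β (l * st w + 3 * w) = β l := by
  have h : 3 * w < st w := by unfold st; omega
  unfold asg
  rw [st_mod h, st_div h, if_neg (by omega), if_neg (by omega), if_neg (by omega)]

theorem tm_congr {β β' : ℕ → Bool} {l : ℕ} (h : ∀ i < l, β i = β' i) : tm K β l = tm K β' l := by
  unfold tm
  refine Finset.sum_congr rfl fun i hi => ?_
  rw [h i (Finset.mem_range.mp hi)]

theorem tm_succ (β : ℕ → Bool) (l : ℕ) :
    tm K β (l + 1) = tm K β l + if β l = true then 2 ^ (K - l - 1) else 0 :=
  Finset.sum_range_succ _ _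

theorem asg_congr {w : ℕ} {β β' : ℕ → Bool} {l : ℕ} (h : ∀ i < l, β i = β' i) {x : ℕ}
    (hx : x < l * st w + 3 * w) : asg code A K ρ w β x = asg code A K ρ w β' x := by
  have hs : 0 < st w := by unfold st; omega
  have h1 : x / st w ≤ l := by
    rw [← Nat.lt_succ_iff, Nat.div_lt_iff_lt_mul hs, Nat.succ_mul]
    have : st w = 3 * w + 1 := rfl
    omega
  unfold asg
  rw [tm_congr (β := β) (β' := β') (fun i hi => h i (by omega))]
  by_cases h2 : x % st w < 3 * w
  · simp only [if_pos h2]
  · have h3 : x / st w < l := by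
      rcases Nat.lt_or_ge (x / st w) l with h3 | h3
      · exact h3
      · have h4 := Nat.div_add_mod x (st w)
        have h5 : x / st w = l := by omega
        rw [h5, Nat.mul_comm] at h4
        omega
    simp only [if_neg h2, h _ h3]

theorem bit_code {t j a : ℕ} (ha : a < A) :
    bit code A ρ t (j * A + a) = decide (a = code (ρ t j)) := by
  unfold bit
  have h1 : (j * A + a) % A = a := by
    rw [Nat.mul_comm, Nat.mul_add_mod, Nat.mod_eq_of_lt ha]
  have h2 : (j * A + a) / A = j := by
    rw [Nat.mul_comm, Nat.mul_add_div (by omega), Nat.div_eq_of_lt ha, add_zero]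
  rw [h1, h2]

/-- The hypotheses on the run. -/
structure Run (rule : C → C → C → C → C) (F : Set C) (code : C → ℕ) (A R : ℕ) (ρ : ℕ → ℕ → C)
    (blank : C) (acc : C → Prop) (ini : List ℕ) (rej : List ℕ)
    (tuples : List (ℕ × ℕ × ℕ × ℕ × ℕ)) : Prop where
  step : ∀ t j, ρ (t + 1) j = rule (ρ t 0) (ρ t (j - 1)) (ρ t j) (ρ t (j + 1))
  mem : ∀ t j, ρ t j ∈ F
  inj : Set.InjOn code F
  lt : ∀ c ∈ F, code c < A
  last : ∀ t, ρ t R = blank
  pos : 1 ≤ R
  init : ∀ j ≤ R, ini.getD j (code blank) = code (ρ 0 j)
  rej : ∀ a, a ∈ rej ↔ ∃ c ∈ F, ¬ acc c ∧ a = code c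
  tup : ∀ u, u ∈ tuples ↔ ∃ g ∈ F, ∃ l ∈ F, ∃ c ∈ F, ∃ r ∈ F,
      u = (code g, code l, code c, code r, code (rule g l c r))

variable (H : Run rule F code A R ρ blank acc ini rej tuples)
include H

omit H in
theorem mem_savM {w : ℕ} {Cl : List (Bool × ℕ)} :
    Cl ∈ savM A R w K ini (code blank) rej tuples ↔
      Cl ∈ initC A R ini (code blank) ∨ Cl ∈ rejC A w rej ∨ Cl ∈ linkC w K ∨
      Cl ∈ ruleC A R w K tuples ∨ Cl = [(true, K * st w + w + (R * A + code blank))] := by
  unfold savM
  simp only [List.mem_append, List.mem_singleton]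

theorem idx_lt {w : ℕ} (hw : w = (R + 1) * A) {t j : ℕ} (hj : j ≤ R) :
    j * A + code (ρ t j) < w := by
  have h1 := H.lt _ (H.mem t j)
  have h2 : (j + 1) * A ≤ (R + 1) * A := Nat.mul_le_mul_right _ (by omega)
  rw [hw]
  have h3 : (j + 1) * A = j * A + A := by ring
  omega

/-- Soundness. -/
theorem sound {w : ℕ} (hw : w = (R + 1) * A) : ∀ (m l : ℕ) (ν : ℕ → Bool), l + m = K →
    QSat (preM w m) (l * st w) ν (savM A R w K ini (code blank) rej tuples) →
    ∃ μ : ℕ → Bool, (∀ j < l * st w, μ j = ν j) ∧
      (∀ Cl ∈ savM A R w K ini (code blank) rej tuples, ∃ x ∈ Cl, μ x.2 = x.1) ∧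
      ∀ t, Cov code A R ρ μ (l * st w) t → Cov code A R ρ μ (l * st w + w) (t + 2 ^ m) := by
  intro m
  induction m with
  | zero =>
    rintro l ν hl ⟨μ, h1, h2⟩
    have hlK : l = K := by omega
    subst hlK
    refine ⟨μ, h1, h2, fun t ht j hj => ?_⟩
    rcases Nat.lt_or_ge j R with hj' | hj'
    · obtain ⟨x, hx, hx'⟩ := h2 _ (mem_savM.mpr (Or.inr (Or.inr (Or.inr (Or.inl
        (List.mem_flatMap.mpr ⟨j, List.mem_range.mpr hj', List.mem_map.mpr ⟨_, (H.tup _).mpr
          ⟨ρ t 0, H.mem _ _, ρ t (j - 1), H.mem _ _, ρ t j, H.mem _ _, ρ t (j + 1), H.mem _ _,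
            rfl⟩, rfl⟩⟩))))))
      simp only [List.mem_cons, List.not_mem_nil, or_false] at hx
      rcases hx with rfl | rfl | rfl | rfl | rfl
      · rw [ht 0 (by omega)] at hx'
        exact absurd hx' (by simp)
      · rw [ht (j - 1) (by omega)] at hx'
        exact absurd hx' (by simp)
      · rw [ht j (by omega)] at hx'
        exact absurd hx' (by simp)
      · rw [ht (j + 1) (by omega)] at hx'
        exact absurd hx' (by simp)
      · rw [pow_zero, H.step]
        exact hx'
    · have hjR : j = R := by omega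
      subst hjR
      obtain ⟨x, hx, hx'⟩ := h2 _ (mem_savM.mpr (Or.inr (Or.inr (Or.inr (Or.inr rfl)))))
      rw [List.mem_singleton] at hx
      subst hx
      rw [H.last]
      exact hx'
  | succ m ih =>
    intro l ν hl hq
    obtain ⟨ν', h1, h2⟩ := (QSat_replicate _ _ _ _ _).mp hq
    have h3 : ∀ b, QSat (preM w m) ((l + 1) * st w) (Function.update ν' (l * st w + 3 * w) b)
        (savM A R w K ini (code blank) rej tuples) := by
      intro b
      have e : (l + 1) * st w = l * st w + 3 * w + 1 := by
        rw [Nat.succ_mul]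
        unfold st
        omega
      rw [e]
      exact h2 b
    have hs : (l + 1) * st w = l * st w + 3 * w + 1 := by
      rw [Nat.succ_mul]
      unfold st
      omega
    obtain ⟨μ0, a1, a2, a3⟩ := ih (l + 1) _ (by omega) (h3 false)
    obtain ⟨μ1, b1, b2, b3⟩ := ih (l + 1) _ (by omega) (h3 true)
    have hb0 : μ0 (l * st w + 3 * w) = false := by
      rw [a1 _ (by omega), Function.update_self]
    have hb1 : μ1 (l * st w + 3 * w) = true := by
      rw [b1 _ (by omega), Function.update_self]
    have hlow : ∀ j < l * st w + 3 * w, μ0 j = ν' j ∧ μ1 j = ν' j := by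
      intro j hj
      rw [a1 _ (by omega), b1 _ (by omega), Function.update_of_ne (by omega),
        Function.update_of_ne (by omega)]
      exact ⟨rfl, rfl⟩
    refine ⟨μ0, fun j hj => ?_, a2, fun t ht => ?_⟩
    · rw [(hlow j (by omega)).1]
      exact h1 j hj
    -- the clauses between the levels
    have hlink : ∀ μ : ℕ → Bool, (∀ Cl ∈ savM A R w K ini (code blank) rej tuples,
        ∃ x ∈ Cl, μ x.2 = x.1) → ∀ i < w, ∀ Cl ∈
          [[(true, l * st w + 3 * w), (false, l * st w + i), (true, (l + 1) * st w + i)],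
          [(true, l * st w + 3 * w), (false, (l + 1) * st w + w + i),
            (true, l * st w + 2 * w + i)],
          [(false, l * st w + 3 * w), (false, l * st w + 2 * w + i), (true, (l + 1) * st w + i)],
          [(false, l * st w + 3 * w), (false, (l + 1) * st w + w + i),
            (true, l * st w + w + i)]], ∃ x ∈ Cl, μ x.2 = x.1 := by
      intro μ hμ i hi Cl hCl
      refine hμ Cl (mem_savM.mpr (Or.inr (Or.inr (Or.inl ?_))))
      exact List.mem_flatMap.mpr ⟨l, List.mem_range.mpr (by omega),
        List.mem_flatMap.mpr ⟨i, List.mem_range.mpr hi, hCl⟩⟩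
    have c1 : Cov code A R ρ μ0 ((l + 1) * st w) t := by
      intro j hj
      have hi := idx_lt H hw (t := t) hj
      obtain ⟨x, hx, hx'⟩ := hlink μ0 a2 _ hi _ (List.mem_cons_self)
      simp only [List.mem_cons, List.not_mem_nil, or_false] at hx
      rcases hx with rfl | rfl | rfl
      · rw [hb0] at hx'; exact absurd hx' (by simp)
      · rw [ht j hj] at hx'; exact absurd hx' (by simp)
      · exact hx'
    have c2 := a3 t c1
    have c3 : ∀ j ≤ R, ν' (l * st w + 2 * w + (j * A + code (ρ (t + 2 ^ m) j))) = true := by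
      intro j hj
      have hi := idx_lt H hw (t := t + 2 ^ m) hj
      obtain ⟨x, hx, hx'⟩ := hlink μ0 a2 _ hi _ (List.mem_cons_of_mem _ (List.mem_cons_self))
      simp only [List.mem_cons, List.not_mem_nil, or_false] at hx
      rcases hx with rfl | rfl | rfl
      · rw [hb0] at hx'; exact absurd hx' (by simp)
      · rw [c2 j hj] at hx'; exact absurd hx' (by simp)
      · rw [← (hlow _ (by omega)).1]
        exact hx'
    have c4 : Cov code A R ρ μ1 ((l + 1) * st w) (t + 2 ^ m) := by
      intro j hj
      have hi := idx_lt H hw (t := t + 2 ^ m) hj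
      obtain ⟨x, hx, hx'⟩ := hlink μ1 b2 _ hi _
        (List.mem_cons_of_mem _ (List.mem_cons_of_mem _ (List.mem_cons_self)))
      simp only [List.mem_cons, List.not_mem_nil, or_false] at hx
      rcases hx with rfl | rfl | rfl
      · rw [hb1] at hx'; exact absurd hx' (by simp)
      · rw [(hlow _ (by omega)).2, c3 j hj] at hx'; exact absurd hx' (by simp)
      · exact hx'
    have c5 := b3 (t + 2 ^ m) c4
    intro j hj
    have e : t + 2 ^ (m + 1) = t + 2 ^ m + 2 ^ m := by rw [pow_succ]; ring
    rw [e]
    have hi := idx_lt H hw (t := t + 2 ^ m + 2 ^ m) hj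
    obtain ⟨x, hx, hx'⟩ := hlink μ1 b2 _ hi _
      (List.mem_cons_of_mem _ (List.mem_cons_of_mem _ (List.mem_cons_of_mem _
        (List.mem_cons_self))))
    simp only [List.mem_cons, List.not_mem_nil, or_false] at hx
    rcases hx with rfl | rfl | rfl
    · rw [hb1] at hx'; exact absurd hx' (by simp)
    · rw [c5 j hj] at hx'; exact absurd hx' (by simp)
    · rw [(hlow _ (by omega)).1, ← (hlow _ (by omega)).2]
      exact hx'

/-- The intended assignment satisfies the matrix. -/
theorem asg_sat {w : ℕ} (hw : w = (R + 1) * A) (hacc : acc (ρ (2 ^ K) 1)) (β : ℕ → Bool) :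
    ∀ Cl ∈ savM A R w K ini (code blank) rej tuples,
      ∃ x ∈ Cl, asg code A K ρ w β x.2 = x.1 := by
  have hA : ∀ t j, code (ρ t j) < A := fun t j => H.lt _ (H.mem t j)
  have hidx : ∀ j a, j ≤ R → a < A → j * A + a < w := by
    intro j a hj ha
    have h2 : (j + 1) * A ≤ (R + 1) * A := Nat.mul_le_mul_right _ (by omega)
    have h3 : (j + 1) * A = j * A + A := by ring
    omega
  have hblank : code blank < A := by
    rw [← H.last 0]
    exact hA 0 R
  intro Cl hCl
  rcases mem_savM.mp hCl with h | h | h | h | h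
  · obtain ⟨j, hj, rfl⟩ := List.mem_map.mp h
    rw [List.mem_range] at hj
    refine ⟨_, List.mem_singleton.mpr rfl, ?_⟩
    show asg code A K ρ w β (j * A + ini.getD j (code blank)) = true
    rw [H.init j (by omega)]
    have h1 := asg_X (code := code) (A := A) (K := K) (ρ := ρ) (w := w) β (l := 0)
      (idx_lt H hw (t := 0) (j := j) (by omega))
    rw [Nat.zero_mul, Nat.zero_add] at h1
    rw [h1, bit_code (hA _ _)]
    exact decide_eq_true rfl
  · obtain ⟨a, ha, rfl⟩ := List.mem_map.mp h
    obtain ⟨c, hc, hnc, rfl⟩ := (H.rej a).mp ha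
    refine ⟨_, List.mem_singleton.mpr rfl, ?_⟩
    show asg code A K ρ w β (w + (A + code c)) = false
    have hc' := H.lt c hc
    have hR := H.pos
    have h1 := asg_Y (code := code) (A := A) (K := K) (ρ := ρ) (w := w) β (l := 0)
      (i := 1 * A + code c) (hidx 1 _ hR hc')
    rw [Nat.zero_mul, Nat.zero_add, Nat.one_mul] at h1
    rw [h1]
    have h2 := bit_code (code := code) (ρ := ρ) (t := tm K β 0 + 2 ^ (K - 0)) (j := 1) hc'
    rw [Nat.one_mul] at h2
    have h3 : tm K β 0 + 2 ^ (K - 0) = 2 ^ K := by
      show 0 + 2 ^ K = _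
      rw [Nat.zero_add]
    rw [h2, h3, decide_eq_false_iff_not]
    intro he
    rw [H.inj hc (H.mem _ _) he] at hnc
    exact hnc hacc
  · obtain ⟨l, hl, h⟩ := List.mem_flatMap.mp h
    obtain ⟨i, hi, h⟩ := List.mem_flatMap.mp h
    rw [List.mem_range] at hl hi
    have hK : K - l = (K - (l + 1)) + 1 := by omega
    have hX := asg_X (code := code) (A := A) (K := K) (ρ := ρ) β (l := l) hi
    have hY := asg_Y (code := code) (A := A) (K := K) (ρ := ρ) β (l := l) hi
    have hM := asg_M (code := code) (A := A) (K := K) (ρ := ρ) β (l := l) hi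
    have hb := asg_b (code := code) (A := A) (K := K) (ρ := ρ) (w := w) β l
    have hX' := asg_X (code := code) (A := A) (K := K) (ρ := ρ) β (l := l + 1) hi
    have hY' := asg_Y (code := code) (A := A) (K := K) (ρ := ρ) β (l := l + 1) hi
    have hts := tm_succ (K := K) β l
    have e1 : K - l - 1 = K - (l + 1) := by omega
    have e2 : (2 : ℕ) ^ (K - l) = 2 ^ (K - (l + 1)) + 2 ^ (K - (l + 1)) := by
      rw [hK, pow_succ]; ring
    rw [e1] at hM hts
    simp only [List.mem_cons, List.not_mem_nil, or_false] at h
    cases hβ : β l with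
    | false =>
      rw [hβ] at hb hts
      simp only [Bool.false_eq_true, if_false, add_zero] at hts
      rw [hts] at hX' hY'
      rcases h with rfl | rfl | rfl | rfl
      · cases hv : asg code A K ρ w β (l * st w + i) with
        | false => exact ⟨(false, l * st w + i), by simp, hv⟩
        | true =>
          refine ⟨(true, (l + 1) * st w + i), by simp, ?_⟩
          show asg code A K ρ w β ((l + 1) * st w + i) = true
          rw [hX', ← hX, hv]
      · cases hv : asg code A K ρ w β ((l + 1) * st w + w + i) with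
        | false => exact ⟨(false, (l + 1) * st w + w + i), by simp, hv⟩
        | true =>
          refine ⟨(true, l * st w + 2 * w + i), by simp, ?_⟩
          show asg code A K ρ w β (l * st w + 2 * w + i) = true
          rw [hM, ← hY', hv]
      · exact ⟨(false, l * st w + 3 * w), by simp, hb⟩
      · exact ⟨(false, l * st w + 3 * w), by simp, hb⟩
    | true =>
      rw [hβ] at hb hts
      simp only [if_true] at hts
      rw [hts] at hX' hY'
      rcases h with rfl | rfl | rfl | rfl
      · exact ⟨(true, l * st w + 3 * w), by simp, hb⟩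
      · exact ⟨(true, l * st w + 3 * w), by simp, hb⟩
      · cases hv : asg code A K ρ w β (l * st w + 2 * w + i) with
        | false => exact ⟨(false, l * st w + 2 * w + i), by simp, hv⟩
        | true =>
          refine ⟨(true, (l + 1) * st w + i), by simp, ?_⟩
          show asg code A K ρ w β ((l + 1) * st w + i) = true
          rw [hX', ← hM, hv]
      · cases hv : asg code A K ρ w β ((l + 1) * st w + w + i) with
        | false => exact ⟨(false, (l + 1) * st w + w + i), by simp, hv⟩
        | true =>
          refine ⟨(true, l * st w + w + i), by simp, ?_⟩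
          show asg code A K ρ w β (l * st w + w + i) = true
          rw [hY, e2, ← add_assoc, ← hY', hv]
  · obtain ⟨j, hj, h⟩ := List.mem_flatMap.mp h
    obtain ⟨u, hu, rfl⟩ := List.mem_map.mp h
    rw [List.mem_range] at hj
    obtain ⟨g, hg, l, hl, c, hc, r, hr, rfl⟩ := (H.tup u).mp hu
    have hX : ∀ j a, j ≤ R → a < A → asg code A K ρ w β (K * st w + (j * A + a))
        = decide (a = code (ρ (tm K β K) j)) := by
      intro j a hj ha
      rw [asg_X β (hidx j a hj ha), bit_code ha]
    by_cases h1 : g = ρ (tm K β K) 0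
    · by_cases h2 : l = ρ (tm K β K) (j - 1)
      · by_cases h3 : c = ρ (tm K β K) j
        · by_cases h4 : r = ρ (tm K β K) (j + 1)
          · refine ⟨(true, K * st w + w + (j * A + code (rule g l c r))), by simp, ?_⟩
            have h5 : rule g l c r = ρ (tm K β K + 1) j := by
              rw [H.step, h1, h2, h3, h4]
            have h6 := asg_Y (code := code) (A := A) (K := K) (ρ := ρ) (w := w) β (l := K)
              (idx_lt H hw (t := tm K β K + 1) (j := j) (by omega))
            rw [Nat.sub_self, pow_zero] at h6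
            show asg code A K ρ w β (K * st w + w + (j * A + code (rule g l c r))) = true
            rw [h5, h6, bit_code (hA _ _)]
            exact decide_eq_true rfl
          · refine ⟨(false, K * st w + ((j + 1) * A + code r)), by simp, ?_⟩
            show asg code A K ρ w β _ = false
            rw [hX _ _ (by omega) (H.lt r hr), decide_eq_false_iff_not]
            exact fun he => h4 (H.inj hr (H.mem _ _) he)
        · refine ⟨(false, K * st w + (j * A + code c)), by simp, ?_⟩
          show asg code A K ρ w β _ = false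
          rw [hX _ _ (by omega) (H.lt c hc), decide_eq_false_iff_not]
          exact fun he => h3 (H.inj hc (H.mem _ _) he)
      · refine ⟨(false, K * st w + ((j - 1) * A + code l)), by simp, ?_⟩
        show asg code A K ρ w β _ = false
        rw [hX _ _ (by omega) (H.lt l hl), decide_eq_false_iff_not]
        exact fun he => h2 (H.inj hl (H.mem _ _) he)
    · refine ⟨(false, K * st w + (0 * A + code g)), by simp, ?_⟩
      show asg code A K ρ w β _ = false
      rw [hX _ _ (by omega) (H.lt g hg), decide_eq_false_iff_not]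
      exact fun he => h1 (H.inj hg (H.mem _ _) he)
  · subst h
    refine ⟨_, List.mem_singleton.mpr rfl, ?_⟩
    show asg code A K ρ w β (K * st w + w + (R * A + code blank)) = true
    rw [asg_Y β (hidx R _ le_rfl hblank), bit_code hblank, H.last]
    exact decide_eq_true rfl

theorem complete {w : ℕ} (hw : w = (R + 1) * A) (hacc : acc (ρ (2 ^ K) 1)) :
    ∀ (m l : ℕ) (β ν : ℕ → Bool), l + m = K → (∀ j < l * st w, ν j = asg code A K ρ w β j) →
    QSat (preM w m) (l * st w) ν (savM A R w K ini (code blank) rej tuples) := by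
  intro m
  induction m with
  | zero =>
    intro l β ν _ hν
    exact ⟨asg code A K ρ w β, fun j hj => (hν j hj).symm, asg_sat H hw hacc β⟩
  | succ m ih =>
    intro l β ν hl hν
    refine (QSat_replicate _ _ _ _ _).mpr ⟨asg code A K ρ w β, fun j hj => (hν j hj).symm, ?_⟩
    intro b
    have hs : (l + 1) * st w = l * st w + 3 * w + 1 := by
      rw [Nat.succ_mul]
      unfold st
      omega
    rw [← hs]
    refine ih (l + 1) (Function.update β l b) _ (by omega) (fun j hj => ?_)
    by_cases hj' : j = l * st w + 3 * w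
    · rw [hj', Function.update_self, asg_b, Function.update_self]
    · rw [Function.update_of_ne hj']
      refine asg_congr (l := l) (fun i hi => ?_) (by omega)
      rw [Function.update_of_ne (by omega)]

/-- Long runs as quantified formulas. -/
theorem sav_iff {w : ℕ} (hw : w = (R + 1) * A) :
    QTrue (preM w K, savM A R w K ini (code blank) rej tuples) ↔ acc (ρ (2 ^ K) 1) := by
  constructor
  · intro h
    have h' : QSat (preM w K) (0 * st w) (fun _ => false)
        (savM A R w K ini (code blank) rej tuples) := by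
      rw [Nat.zero_mul]
      exact h
    obtain ⟨μ, -, h2, h3⟩ := sound H hw K 0 _ (zero_add _) h'
    rw [Nat.zero_mul, Nat.zero_add] at h3
    have h4 : Cov code A R ρ μ 0 0 := by
      intro j hj
      obtain ⟨x, hx, hx'⟩ := h2 _ (mem_savM.mpr (Or.inl
        (List.mem_map.mpr ⟨j, List.mem_range.mpr (by omega), rfl⟩)))
      rw [List.mem_singleton] at hx
      subst hx
      rw [← H.init j hj, Nat.zero_add]
      exact hx'
    have h5 := h3 0 h4
    rw [Nat.zero_add] at h5
    by_contra hc
    obtain ⟨x, hx, hx'⟩ := h2 _ (mem_savM.mpr (Or.inr (Or.inl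
        (List.mem_map.mpr ⟨code (ρ (2 ^ K) 1), (H.rej _).mpr ⟨_, H.mem _ _, hc, rfl⟩, rfl⟩))))
    rw [List.mem_singleton] at hx
    subst hx
    have h6 := h5 1 H.pos
    rw [Nat.one_mul] at h6
    rw [h6] at hx'
    exact absurd hx' (by simp)
  · intro h
    have h1 := complete H hw h K 0 (fun _ => false) (fun _ => false) (zero_add _)
      (fun j hj => absurd hj (by omega))
    rw [Nat.zero_mul] at h1
    exact h1

end

end Pool.Agent.Helper7.CogP
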