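import Pool.Agent.Helper7.CogP.Val

/-!
The value of a sum of single trees and pairs of trees.
-/

set_option autoImplicit false

namespace Pool.Agent.Helper7.CogP

open Finset Pool.Agent.Helper7.Cog

variable {B K : ℕ}

/-- The two kinds of positions in the strategy of Dominator. -/
def PS (B K k : ℕ) : Prop := ∀ (gs : List It) (M : Multiset ℕ) (n v : ℕ), Inv B K gs M →
  Val B true gs M ≤ v → (Pos gs M n).card + up B (Ew gs) + v ≤ k → AS k (Pos gs M n)

def PD (B K k : ℕ) : Prop := ∀ (gs : List It) (M : Multiset ℕ) (n v : ℕ), Inv B K gs M →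
  Val B false gs M ≤ v → (Pos gs M n).card + dn B (Ew gs) + v ≤ k → AD k (Pos gs M n)

theorem card_rm {it : It} {c : List ℕ} {r : List It} (h : Rm it c r) (p q : List It)
    (M : Multiset ℕ) (n : ℕ) :
    (Pos (p ++ it :: q) M n).card = (Pos (p ++ r ++ q) M n).card + 1 := by
  rw [Pos_rm h, Multiset.card_cons]

theorem Ew_rm {it : It} {c : List ℕ} {r : List It} (h : Rm it c r) (p q : List It) :
    Ew (p ++ it :: q) = it.w ::ₘ Ew (p ++ r ++ q) := by
  rw [Ew_append, Ew_cons, h.ws, Ew_append, Ew_append, Multiset.cons_add, Multiset.add_cons,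
    add_assoc]

/-- The card after taking a tree. -/
theorem card_take {it : It} {c : List ℕ} {r : List It} (h : Rm it c r) (p q : List It)
    (M : Multiset ℕ) (n : ℕ) (hc : c.length ≤ it.w + 1) :
    (Pos (p ++ r ++ q) (M + (c : Multiset ℕ)) (n + (it.w + 1 - c.length))).card
      = (Pos (p ++ it :: q) M n).card + it.w := by
  rw [card_rm h, card_Pos, card_Pos, Multiset.card_add, Multiset.coe_card]
  omega

theorem PD_zero : PD B K 0 := by
  intro gs M n v _ _ hk
  have : (Pos gs M n).card = 0 := by omega
  exact Multiset.card_eq_zero.mp this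

theorem Ew_le_w {it : It} {q : List It} {M : Multiset ℕ} (h : Inv B K (it :: q) M) :
    ∀ t, it.w ≤ t → cnt (Ew q) t % 2 = 0 := by
  intro t ht
  have h2 : cnt (Ew q) t = 0 := cnt_eq_zero fun x hx => by
    have := Inv.below (p := []) h x hx
    omega
  rw [h2]

theorem Pos_cons_rm {it : It} {c : List ℕ} {r : List It} (h : Rm it c r) (q : List It)
    (M : Multiset ℕ) (n : ℕ) : Pos (it :: q) M n = .big it.w c ::ₘ Pos (r ++ q) M n :=
  Pos_rm h [] q M n

theorem PD_succ {k : ℕ} (hS : PS B K k) : PD B K (k + 1) := by
  intro gs M n v hI hv hk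
  -- killing the tree with content `c` of the topmost item
  have kill : ∀ (it : It) (q : List It) (c : List ℕ) (r : List It), gs = it :: q → Rm it c r →
      Val B true (r ++ q) M ≤ v → AD (k + 1) (Pos gs M n) := by
    intro it q c r e hr hv'
    subst e
    refine Or.inr ⟨.big it.w c, ?_, ?_⟩
    · rw [Pos_cons_rm hr]; exact Multiset.mem_cons_self _ _
    · rw [Pos_cons_rm hr, Multiset.erase_cons_head]
      refine hS (r ++ q) M n v (Inv.drop (p := []) hI hr) hv' ?_
      have h1 := card_rm hr [] q M n
      have h2 := Ew_rm hr [] q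
      have h3 : dn B (Ew ([] ++ it :: q)) = up B (Ew ([] ++ r ++ q)) := by
        rw [h2]
        exact dn_even (Inv.even (p := []) hI hr (fun i hi => absurd hi List.not_mem_nil))
      rw [List.nil_append] at h1 h3
      rw [List.nil_append] at h1 h3
      omega
  cases gs with
  | nil =>
    have e0 : Ew [] = 0 := rfl
    rcases eq_or_ne M 0 with rfl | hM
    · cases n with
      | zero => exact Or.inl rfl
      | succ n =>
        refine Or.inr ⟨.k2, ?_, ?_⟩
        · rw [Pos_k2]; exact Multiset.mem_cons_self _ _
        · rw [Pos_k2, Multiset.erase_cons_head]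
          refine hS [] 0 n v hI ?_ ?_
          · show up B 0 ≤ v
            rw [up_zero]
            omega
          · rw [card_Pos, e0, up_zero] at *
            omega
    · obtain ⟨x, hx, hmax⟩ : ∃ x ∈ M, ∀ y ∈ M, y ≤ x := by
        obtain ⟨l, hl, h⟩ := Finset.exists_max_image M.toFinset id
          (by rw [Multiset.toFinset_nonempty]; exact hM)
        exact ⟨l, Multiset.mem_toFinset.mp hl, fun l' hl' => h l' (Multiset.mem_toFinset.mpr hl')⟩
      refine Or.inr ⟨.sw x, ?_, ?_⟩
      · rw [Pos_sw _ hx]; exact Multiset.mem_cons_self _ _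
      · rw [Pos_sw _ hx, Multiset.erase_cons_head]
        refine hS [] (M.erase x) n v (hI.erase x) ?_ ?_
        · have h1 : dn B M ≤ v := hv
          rw [← Multiset.cons_erase hx, dn_cons_max B x _
            (fun y hy => hmax y (Multiset.mem_of_mem_erase hy))] at h1
          exact h1
        · rw [e0, up_zero, card_Pos]
          rw [e0, card_Pos] at hk
          have := Multiset.card_erase_add_one hx
          omega
  | cons it q =>
    cases it with
    | pair w a b =>
      rcases min_le_iff.mp hv with hv' | hv'
      · exact kill _ q b [.one w a] rfl (Rm.right w a b) hv'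
      · exact kill _ q a [.one w b] rfl (Rm.left w a b) hv'
    | one w c => exact kill _ q c [] rfl (Rm.one w c) hv

theorem PS_of {k : ℕ} (hD : PD B K k) (hS : ∀ k', k' + 1 = k → PS B K k') : PS B K k := by
  intro gs M n v hI hv hk
  by_cases h0 : Pos gs M n = 0
  · exact Or.inl h0
  right
  intro l hl
  have hpos : 0 < (Pos gs M n).card := Multiset.card_pos.mpr h0
  obtain ⟨k', rfl⟩ : ∃ k', k = k' + 1 := ⟨k - 1, by omega⟩
  have hS' := hS k' rfl
  rcases mem_Pos hl with ⟨p, it, q, c, r, e, hr, rfl⟩ | ⟨x, hx, rfl⟩ | ⟨hn, rfl⟩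
  · subst e
    have hlen : c.length ≤ it.w + 1 :=
      hI.len it (List.mem_append_right _ List.mem_cons_self) c r hr
    refine ⟨kids_big_ne _ hlen, ?_⟩
    rw [Pos_rm hr, Multiset.erase_cons_head, Pos_add_kids]
    have hcard := card_take hr p q M n hlen
    have hE := Ew_rm hr p q
    have hI' := hI.rm hr
    have hwB := hI.wB
    rcases split_one p with hp | ⟨p1, u, d, p2, e, hp1⟩
    · have hev := hI.even hr hp
      -- Dominator answers in the same pair
      have main : ∀ (w : ℕ) (b : List ℕ), it.w = w → r = [.one w b] →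
          Val B true (p ++ q) (M + (c : Multiset ℕ)) ≤ v →
          AD (k' + 1) (Pos (p ++ r ++ q) (M + (c : Multiset ℕ))
            (n + (it.w + 1 - c.length))) := by
        intro w b hw' hrb hv'
        subst hrb
        rw [List.append_assoc] at hI' hcard hE ⊢
        change Inv B K (p ++ .one w b :: q) (M + (c : Multiset ℕ)) at hI'
        change (Pos (p ++ .one w b :: q) (M + (c : Multiset ℕ)) (n + (it.w + 1 - c.length))).card
          = _ at hcard
        change Ew (p ++ it :: q) = it.w ::ₘ Ew (p ++ .one w b :: q) at hE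
        show AD (k' + 1) (Pos (p ++ .one w b :: q) (M + (c : Multiset ℕ))
            (n + (it.w + 1 - c.length)))
        rw [hw'] at hcard hE hwB ⊢
        have e1 := Pos_rm (Rm.one w b) p q (M + (c : Multiset ℕ)) (n + (w + 1 - c.length))
        have h2 := card_rm (Rm.one w b) p q (M + (c : Multiset ℕ)) (n + (w + 1 - c.length))
        have h3 := Ew_rm (Rm.one w b) p q
        have hI2 := hI'.drop (Rm.one w b)
        rw [List.append_nil] at e1 h2 h3 hI2
        rw [e1]
        refine Or.inr ⟨.big w b, Multiset.mem_cons_self _ _, ?_⟩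
        rw [show (It.one w b).w = w from rfl, Multiset.erase_cons_head]
        refine hS' (p ++ q) _ _ v hI2 hv' ?_
        have h4 : up B (Ew (p ++ it :: q)) = w + up B (Ew (p ++ q)) := by
          rw [hE, h3]
          exact up_two hwB.2 _
        omega
      cases hr with
      | left w c b =>
        exact main w b rfl rfl ((max_le_iff.mp (Val_S_pair hp q w c b M)).1.trans hv)
      | right w a c =>
        exact main w a rfl rfl ((max_le_iff.mp (Val_S_pair hp q w a c M)).2.trans hv)
      | one w c =>
        have h1 := Val_S_one (B := B) hp q w c M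
        rw [List.append_nil] at *
        refine hD _ _ _ v hI' (h1.trans hv) ?_
        have h2 : up B (Ew (p ++ .one w c :: q)) = w + dn B (Ew (p ++ q)) := by
          rw [hE]
          exact up_even hwB.2 hev
        rw [hcard]
        show _ + w + _ + v ≤ k' + 1
        omega
    · obtain ⟨h1, h2, h3, h4⟩ := hI.odd_above hr e hp1
      have h5 := up_odd h2 h1 h3 h4
      rw [← hE] at h5
      refine hD _ _ _ K hI' ((Val_le B _ _ _).trans hI'.small) ?_
      omega
  · refine ⟨by simp [kids], ?_⟩
    have hxK := hI.memB hx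
    have hxB : x ≤ B := hxK.trans hI.KB
    rw [Pos_sw _ hx, Multiset.erase_cons_head]
    show AD _ (Pos gs (M.erase x) n + (List.replicate (x + 1) L.k2 : Multiset L))
    rw [Pos_add_k2]
    have h2 := Multiset.card_erase_add_one hx
    rcases split_one gs with hp | ⟨p1, u, d, p2, e, hp1⟩
    · have h1 := Val_S_sw (B := B) hp hxB M hx
      refine hD _ _ _ (v - x) (hI.erase x) (by omega) ?_
      have h3 := dn_le_up B (Ew gs)
      rw [card_Pos] at hk ⊢
      omega
    · obtain ⟨h3, h4, h5⟩ := hI.odd e hp1
      have h6 := up_odd (w := 0) h4 h3 (Nat.zero_le _) h5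
      rw [up_zero_cons] at h6
      have h7 := Val_le B gs false (M.erase x)
      have h8 := hI.small
      have h9 : M.sum = x + (M.erase x).sum := by
        conv_lhs => rw [← Multiset.cons_erase hx]
        rw [Multiset.sum_cons]
      refine hD _ _ _ (K - x) (hI.erase x) (by omega) ?_
      rw [card_Pos] at hk ⊢
      omega
  · refine ⟨by simp [kids], ?_⟩
    obtain ⟨m, rfl⟩ : ∃ m, n = m + 1 := ⟨n - 1, by omega⟩
    rw [Pos_k2, Multiset.erase_cons_head]
    refine answer_k2 (hS' gs M m v hI hv ?_)
    rw [card_Pos] at hk ⊢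
    omega

theorem P_all (B K k : ℕ) : PD B K k ∧ PS B K k := by
  induction k with
  | zero => exact ⟨PD_zero, PS_of PD_zero (fun k' h => absurd h (by omega))⟩
  | succ k ih =>
    have hD := PD_succ ih.2
    refine ⟨hD, PS_of hD (fun k' h => ?_)⟩
    have : k' = k := by omega
    rw [this]
    exact ih.2

/-- The two kinds of positions in the strategy of Staller. -/
def QS (B K k : ℕ) : Prop := ∀ (gs : List It) (M : Multiset ℕ) (n v : ℕ), Inv B K gs M →
  v ≤ Val B true gs M → k < (Pos gs M n).card + up B (Ew gs) + v → ¬ AS k (Pos gs M n)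

def QD (B K k : ℕ) : Prop := ∀ (gs : List It) (M : Multiset ℕ) (n v : ℕ), Inv B K gs M →
  v ≤ Val B false gs M → k < (Pos gs M n).card + dn B (Ew gs) + v → ¬ AD k (Pos gs M n)

theorem Val_zero_D (B : ℕ) : Val B false [] 0 = 0 := by
  have h := dn_le_up B 0
  rw [up_zero] at h
  exact Nat.le_zero.mp h

theorem Tr_card_pos {it : It} {q : List It} : (Tr (it :: q)).card ≠ 0 := by
  rw [Tr_cons, Multiset.card_add]
  cases it <;> simp [It.trees]

theorem QD_nonzero {gs : List It} {M : Multiset ℕ} {n v k : ℕ}
    (hv : v ≤ Val B false gs M) (hk : k < (Pos gs M n).card + dn B (Ew gs) + v) :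
    Pos gs M n ≠ 0 := by
  intro h0
  have h1 := congrArg Multiset.card h0
  rw [card_Pos, Multiset.card_zero] at h1
  cases gs with
  | nil =>
    have hM : M = 0 := Multiset.card_eq_zero.mp (by omega)
    subst hM
    rw [Val_zero_D] at hv
    have h2 := dn_le_up B (Ew [])
    rw [show Ew [] = 0 from rfl, up_zero] at h2
    rw [show Ew [] = 0 from rfl, card_Pos] at hk
    omega
  | cons it q => exact Tr_card_pos (it := it) (q := q) (by omega)

theorem dn_Ew_le_wt (gs : List It) (M : Multiset ℕ) (n : ℕ) :
    dn B (Ew gs) ≤ dn B ((Pos gs M n).map wt) := dn_mono B (Ew_le gs M n)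

theorem up_Ew_le_wt (gs : List It) (M : Multiset ℕ) (n : ℕ) :
    up B (Ew gs) ≤ up B ((Pos gs M n).map wt) := up_mono B (Ew_le gs M n)

theorem QD_zero : QD B K 0 := by
  intro gs M n v _ hv hk hw
  exact QD_nonzero hv hk hw

theorem QD_succ {k : ℕ} (hS : QS B K k) (hD : QD B K k) : QD B K (k + 1) := by
  intro gs M n v hI hv hk hw
  have hvK : v ≤ K := hv.trans ((Val_le B _ _ _).trans hI.small)
  rcases hw with hw | ⟨l, hl, hw⟩
  · exact QD_nonzero hv hk hw
  rcases mem_Pos hl with ⟨p, it, q, c, r, e, hr, rfl⟩ | ⟨x, hx, rfl⟩ | ⟨hn, rfl⟩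
  · subst e
    rw [Pos_rm hr, Multiset.erase_cons_head] at hw
    have hcard := card_rm hr p q M n
    have hE := Ew_rm hr p q
    have hI' := hI.drop hr
    have hwB := hI.wB
    rcases split_one p with hp | ⟨p1, u, d, p2, e, hp1⟩
    · have hev := hI.even hr hp
      -- Staller answers in the same pair
      have main : ∀ (w : ℕ) (a : List ℕ), it.w = w → r = [.one w a] →
          v ≤ Val B false (p ++ q) (M + (a : Multiset ℕ)) → False := by
        intro w a hw' hra hv'
        subst hra
        have hI2 := hI'
        rw [List.append_assoc] at hI2 hw hcard hE hev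
        change Inv B K (p ++ .one w a :: q) M at hI2
        change AS k (Pos (p ++ .one w a :: q) M n) at hw
        have hlen : a.length ≤ w + 1 :=
          hI2.len (.one w a) (List.mem_append_right _ List.mem_cons_self) a [] (Rm.one w a)
        have e1 : Pos (p ++ .one w a :: q) M n = .big w a ::ₘ Pos (p ++ q) M n := by
          have := Pos_rm (Rm.one w a) p q M n
          rwa [List.append_nil] at this
        rcases hw with hw | hw
        · rw [e1] at hw
          exact Multiset.cons_ne_zero hw
        · obtain ⟨-, h1⟩ := hw (.big w a) (by rw [e1]; exact Multiset.mem_cons_self _ _)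
          rw [e1, Multiset.erase_cons_head, Pos_add_kids] at h1
          have hI3 := hI2.rm (Rm.one w a)
          have h2 := card_take (Rm.one w a) p q M n hlen
          have h3 := Ew_rm (Rm.one w a) p q
          rw [List.append_nil] at hI3 h2 h3
          refine hD (p ++ q) _ _ v hI3 hv' ?_ h1
          have h4 : dn B (Ew (p ++ it :: q)) = w + dn B (Ew (p ++ q)) := by
            rw [hE, hw']
            show dn B (w ::ₘ Ew (p ++ .one w a :: q)) = _
            rw [h3]
            rw [hw'] at hwB
            exact dn_two hwB.2 _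
          change (Pos (p ++ q) (M + (a : Multiset ℕ)) (n + (w + 1 - a.length))).card
            = _ + w at h2
          change _ = (Pos (p ++ .one w a :: q) M n).card + 1 at hcard
          omega
      cases hr with
      | left w c b =>
        exact main w b rfl rfl (hv.trans ((Val_D_pair hp q w c b M).trans (min_le_right _ _)))
      | right w a c =>
        exact main w a rfl rfl (hv.trans ((Val_D_pair hp q w a c M).trans (min_le_left _ _)))
      | one w c =>
        refine hS _ _ _ v hI' ?_ ?_ hw
        · rw [List.append_nil]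
          exact hv.trans (Val_D_one hp q w c M)
        · have h2 : dn B (Ew (p ++ .one w c :: q)) = up B (Ew (p ++ [] ++ q)) := by
            rw [hE]
            exact dn_even hev
          omega
    · obtain ⟨h1, h2, h3, h4⟩ := hI.odd_above hr e hp1
      have h5 := dn_odd h2 h1 h3 h4
      rw [← hE] at h5
      have h6 := up_Ew_le_wt (B := B) (p ++ r ++ q) M n
      exact (greedy B k).2 _ (by omega) hw
  · rw [Pos_sw _ hx, Multiset.erase_cons_head] at hw
    have h2 := Multiset.card_erase_add_one hx
    rcases split_one gs with hp | ⟨p1, u, d, p2, e, hp1⟩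
    · refine hS _ _ _ v (hI.erase x) (hv.trans (Val_D_sw hp M hx)) ?_ hw
      have h3 := dn_le_up B (Ew gs)
      rw [card_Pos] at hk ⊢
      omega
    · obtain ⟨h3, h4, h5⟩ := hI.odd e hp1
      have h6 := dn_odd (w := 0) h4 h3 (Nat.zero_le _) h5
      rw [dn_zero_cons] at h6
      have h7 := up_Ew_le_wt (B := B) gs (M.erase x) n
      refine (greedy B k).2 _ ?_ hw
      rw [card_Pos] at hk ⊢
      omega
  · obtain ⟨m, rfl⟩ : ∃ m, n = m + 1 := ⟨n - 1, by omega⟩
    rw [Pos_k2, Multiset.erase_cons_head] at hw
    rcases split_one gs with hp | ⟨p1, u, d, p2, e, hp1⟩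
    · refine hS _ _ _ v hI (hv.trans (Val_D_le hp M)) ?_ hw
      have h3 := dn_le_up B (Ew gs)
      rw [card_Pos] at hk ⊢
      omega
    · obtain ⟨h3, h4, h5⟩ := hI.odd e hp1
      have h6 := dn_odd (w := 0) h4 h3 (Nat.zero_le _) h5
      rw [dn_zero_cons] at h6
      have h7 := up_Ew_le_wt (B := B) gs M m
      refine (greedy B k).2 _ ?_ hw
      rw [card_Pos] at hk ⊢
      omega

theorem up_erase_le (F : Multiset L) (l : L) :
    (F.map wt).erase (wt l) ≤ (F.erase l).map wt := by
  by_cases hl : l ∈ F
  · conv_lhs => rw [← Multiset.cons_erase hl]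
    rw [Multiset.map_cons, Multiset.erase_cons_head]
  · rw [Multiset.erase_of_notMem hl]
    exact Multiset.erase_le _ _

theorem QS_of {k : ℕ} (hD : QD B K k) (hS : ∀ k', k' + 1 = k → QS B K k') : QS B K k := by
  intro gs M n v hI hv hk
  have hvK : v ≤ K := hv.trans ((Val_le B _ _ _).trans hI.small)
  cases gs with
  | nil =>
    refine (greedy B k).2 _ ?_
    rw [map_wt_Pos]
    have e0 : Ew [] = 0 := rfl
    rw [e0, zero_add, up_add_zeros]
    rw [e0, up_zero] at hk
    have h1 : v ≤ up B M := hv
    omega
  | cons it q =>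
    intro hw
    -- Staller takes the tree with content `c`
    have take : ∀ (c : List ℕ) (r : List It), Rm it c r →
        AD k (Pos (r ++ q) (M + (c : Multiset ℕ)) (n + (it.w + 1 - c.length))) := by
      intro c r hr
      rcases hw with hw | hw
      · rw [Pos_cons_rm hr] at hw
        exact absurd hw (Multiset.cons_ne_zero)
      · obtain ⟨-, h1⟩ := hw (.big it.w c) (by rw [Pos_cons_rm hr]; exact Multiset.mem_cons_self _ _)
        rw [Pos_cons_rm hr, Multiset.erase_cons_head, Pos_add_kids] at h1
        exact h1
    have hwB := Inv.wB (p := []) hI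
    have hbelow := Inv.below (p := []) hI
    -- the case of a pair
    have pairc : ∀ (w : ℕ) (a b : List ℕ), it.w = w → Rm it a [.one w b] →
        up B (Ew (it :: q)) = w + up B (Ew q) →
        v ≤ Val B true q (M + (a : Multiset ℕ)) → False := by
      intro w a b hw' hr hup hv'
      have h1 := take a _ hr
      have hI1 := Inv.rm (p := []) hI hr
      have hlen := hI.len it List.mem_cons_self a _ hr
      have h2 := card_take hr [] q M n hlen
      change (Pos (.one w b :: q) (M + (a : Multiset ℕ)) (n + (it.w + 1 - a.length))).card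
        = (Pos (it :: q) M n).card + it.w at h2
      change Inv B K (.one w b :: q) (M + (a : Multiset ℕ)) at hI1
      change AD k (Pos (.one w b :: q) (M + (a : Multiset ℕ)) (n + (it.w + 1 - a.length))) at h1
      rw [hw'] at h1 h2 hwB hbelow
      have h3 := card_rm (Rm.one w b) [] q (M + (a : Multiset ℕ)) (n + (w + 1 - a.length))
      change (Pos (.one w b :: q) (M + (a : Multiset ℕ)) (n + (w + 1 - a.length))).card
        = (Pos q (M + (a : Multiset ℕ)) (n + (w + 1 - a.length))).card + 1 at h3
      rw [Pos_cons_rm (Rm.one w b)] at h1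
      change AD k (.big w b ::ₘ Pos q (M + (a : Multiset ℕ)) (n + (w + 1 - a.length))) at h1
      cases k with
      | zero => exact Multiset.cons_ne_zero h1
      | succ k =>
        rcases h1 with h1 | ⟨l, hl, h1⟩
        · exact Multiset.cons_ne_zero h1
        by_cases hlt : l = .big w b
        · rw [hlt, Multiset.erase_cons_head] at h1
          have hI2 := Inv.drop (p := []) hI1 (Rm.one w b)
          refine hS k rfl q _ _ v hI2 hv' ?_ h1
          omega
        · rw [Multiset.erase_cons_tail _ (fun e => hlt e.symm)] at h1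
          have hlG := (Multiset.mem_cons.mp hl).resolve_left hlt
          refine (greedy B k).2 _ ?_ h1
          rw [Multiset.card_cons, Multiset.card_erase_add_one hlG, Multiset.map_cons]
          have h5 := up_top hwB.2 hwB.1 (F := Ew q)
            (fun x hx => by have := hbelow x hx; omega) (wt l)
          have h6 : up B (w ::ₘ (Ew q).erase (wt l)) ≤ up B (w ::ₘ
              ((Pos q (M + (a : Multiset ℕ)) (n + (w + 1 - a.length))).erase l).map wt) := by
            refine up_mono B (Multiset.cons_le_cons _ ?_)
            exact (Multiset.erase_le_erase _ (Ew_le q _ _)).trans (up_erase_le _ l)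
          show k < _ + up B (w ::ₘ _)
          omega
    cases it with
    | pair w a b =>
      have hup : up B (Ew (.pair w a b :: q)) = w + up B (Ew q) := by
        have e : Ew (.pair w a b :: q) = w ::ₘ w ::ₘ Ew q := by
          rw [Ew_cons]
          show ({w, w} : Multiset ℕ) + _ = _
          rw [Multiset.insert_eq_cons, Multiset.cons_add, Multiset.singleton_add]
        rw [e]
        exact up_two hwB.2 _
      rcases le_max_iff.mp hv with hv' | hv'
      · exact pairc w a b rfl (Rm.left w a b) hup hv'
      · exact pairc w b a rfl (Rm.right w a b) hup hv'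
    | one w c =>
      have h1 := take c _ (Rm.one w c)
      have hI1 := Inv.rm (p := []) hI (Rm.one w c)
      have hlen := hI.len _ List.mem_cons_self c _ (Rm.one w c)
      have h2 := card_take (Rm.one w c) [] q M n hlen
      change (Pos q (M + (c : Multiset ℕ)) (n + (w + 1 - c.length))).card
        = (Pos (.one w c :: q) M n).card + w at h2
      refine hD q _ _ v hI1 hv ?_ h1
      have h3 : up B (Ew (.one w c :: q)) = w + dn B (Ew q) := by
        have e : Ew (.one w c :: q) = w ::ₘ Ew q := by
          rw [Ew_cons]
          exact Multiset.singleton_add _ _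
        rw [e]
        exact up_even hwB.2 (Ew_le_w hI)
      show k < (Pos q (M + (c : Multiset ℕ)) (n + (w + 1 - c.length))).card + _ + v
      omega

theorem Q_all (B K k : ℕ) : QD B K k ∧ QS B K k := by
  induction k with
  | zero => exact ⟨QD_zero, QS_of QD_zero (fun k' h => absurd h (by omega))⟩
  | succ k ih =>
    have hD := QD_succ ih.2 ih.1
    refine ⟨hD, QS_of hD (fun k' h => ?_)⟩
    have : k' = k := by omega
    rw [this]
    exact ih.2

/-- The value of a sum of pairs and single trees, Staller on move. -/
theorem AS_iff {gs : List It} (hI : Inv B K gs 0) (k : ℕ) :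
    AS k (Tr gs) ↔ (Tr gs).card + up B (Ew gs) + Val B true gs 0 ≤ k := by
  have e : Pos gs 0 0 = Tr gs := by
    unfold Pos
    simp
  rw [← e]
  constructor
  · intro h
    by_contra hc
    exact (Q_all B K k).2 gs 0 0 _ hI le_rfl (not_le.mp hc) h
  · intro h
    exact (P_all B K k).2 gs 0 0 _ hI le_rfl h

/-- The value of a sum of pairs and single trees, Dominator on move. -/
theorem AD_iff {gs : List It} (hI : Inv B K gs 0) (k : ℕ) :
    AD k (Tr gs) ↔ (Tr gs).card + dn B (Ew gs) + Val B false gs 0 ≤ k := by
  have e : Pos gs 0 0 = Tr gs := by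
    unfold Pos
    simp
  rw [← e]
  constructor
  · intro h
    by_contra hc
    exact (Q_all B K k).1 gs 0 0 _ hI le_rfl (not_le.mp hc) h
  · intro h
    exact (P_all B K k).1 gs 0 0 _ hI le_rfl h

end Pool.Agent.Helper7.CogP
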