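import Pool.Agent.Helper7.Cog.Lower

/-!
Sums of single trees and pairs of trees: positions, values and counting.
-/

set_option autoImplicit false

namespace Pool.Agent.Helper7.CogP

open Finset Pool.Agent.Helper7.Cog

/-- A pair of trees with equal weights, or a single tree. -/
inductive It
  /-- two trees -/
  | pair (w : ℕ) (a b : List ℕ)
  /-- one tree -/
  | one (w : ℕ) (c : List ℕ)

/-- The weight. -/
def It.w : It → ℕ
  | .pair w _ _ => w
  | .one w _ => w

/-- The trees. -/
def It.trees : It → Multiset L
  | .pair w a b => {.big w a, .big w b}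
  | .one w c => {.big w c}

/-- The weights of the trees. -/
def It.ws : It → Multiset ℕ
  | .pair w _ _ => {w, w}
  | .one w _ => {w}

/-- The sum of the contents. -/
def It.tot : It → ℕ
  | .pair _ a b => a.sum + b.sum
  | .one _ c => c.sum

/-- Being a pair. -/
def It.IsPair : It → Prop
  | .pair _ _ _ => True
  | .one _ _ => False

/-- Removing a tree with content `c` leaves `r`. -/
inductive Rm : It → List ℕ → List It → Prop
  | left (w : ℕ) (a b : List ℕ) : Rm (.pair w a b) a [.one w b]
  | right (w : ℕ) (a b : List ℕ) : Rm (.pair w a b) b [.one w a]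
  | one (w : ℕ) (c : List ℕ) : Rm (.one w c) c []

/-- The sum of the contents. -/
def tot (gs : List It) : ℕ := (gs.map It.tot).sum

/-- The weights. -/
def Ew (gs : List It) : Multiset ℕ := (gs.map It.ws).sum

/-- The trees. -/
def Tr (gs : List It) : Multiset L := (gs.map It.trees).sum

/-- The general position. -/
def Pos (gs : List It) (M : Multiset ℕ) (n : ℕ) : Multiset L :=
  Tr gs + (M.map .sw + Multiset.replicate n .k2)

/-- The value (`true`: Staller is on move). -/
def Val (B : ℕ) : Bool → List It → Multiset ℕ → ℕ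
  | true, [], M => up B M
  | false, [], M => dn B M
  | true, .pair _ a b :: gs, M =>
      max (Val B true gs (M + (a : Multiset ℕ))) (Val B true gs (M + (b : Multiset ℕ)))
  | false, .pair _ a b :: gs, M =>
      min (Val B false gs (M + (a : Multiset ℕ))) (Val B false gs (M + (b : Multiset ℕ)))
  | true, .one _ c :: gs, M => Val B false gs (M + (c : Multiset ℕ))
  | false, .one _ _ :: gs, M => Val B true gs M

/-! ### Lists -/

theorem tot_cons (it : It) (gs : List It) : tot (it :: gs) = it.tot + tot gs := by
  unfold tot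
  rw [List.map_cons, List.sum_cons]

theorem tot_append (gs gs' : List It) : tot (gs ++ gs') = tot gs + tot gs' := by
  unfold tot
  rw [List.map_append, List.sum_append]

theorem Ew_cons (it : It) (gs : List It) : Ew (it :: gs) = it.ws + Ew gs := by
  unfold Ew
  rw [List.map_cons, List.sum_cons]

theorem Ew_append (gs gs' : List It) : Ew (gs ++ gs') = Ew gs + Ew gs' := by
  unfold Ew
  rw [List.map_append, List.sum_append]

theorem Tr_cons (it : It) (gs : List It) : Tr (it :: gs) = it.trees + Tr gs := by
  unfold Tr
  rw [List.map_cons, List.sum_cons]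

theorem Tr_append (gs gs' : List It) : Tr (gs ++ gs') = Tr gs + Tr gs' := by
  unfold Tr
  rw [List.map_append, List.sum_append]

theorem Ew_nil : Ew [] = 0 := rfl

theorem Tr_nil : Tr [] = 0 := rfl

theorem Rm.trees {it : It} {c : List ℕ} {r : List It} (h : Rm it c r) :
    it.trees = .big it.w c ::ₘ Tr r := by
  cases h with
  | left w a b => rfl
  | right w a b => exact Multiset.pair_comm _ _
  | one w c => rfl

theorem Rm.ws {it : It} {c : List ℕ} {r : List It} (h : Rm it c r) :
    it.ws = it.w ::ₘ Ew r := by
  cases h with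
  | left w a b => rfl
  | right w a b => rfl
  | one w c => rfl

theorem Rm.tot_eq {it : It} {c : List ℕ} {r : List It} (h : Rm it c r) :
    it.tot = c.sum + tot r := by
  cases h with
  | left w a b => simp [It.tot, tot]
  | right w a b => simp [It.tot, tot, add_comm]
  | one w c => simp [It.tot, tot]

theorem Rm.sub {it : It} {c : List ℕ} {r : List It} (h : Rm it c r) (p q : List It) :
    ((p ++ r ++ q).map It.w).Sublist ((p ++ it :: q).map It.w) := by
  have h1 : ((r ++ q).map It.w).Sublist ((it :: q).map It.w) := by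
    cases h with
    | left w a b => exact List.Sublist.refl _
    | right w a b => exact List.Sublist.refl _
    | one w c => exact List.sublist_cons_self _ _
  have e1 : (p ++ r ++ q).map It.w = p.map It.w ++ (r ++ q).map It.w := by
    rw [List.append_assoc, List.map_append]
  have e2 : (p ++ it :: q).map It.w = p.map It.w ++ (it :: q).map It.w := List.map_append
  rw [e1, e2]
  exact List.Sublist.append (List.Sublist.refl _) h1

theorem mem_Ew {gs : List It} {x : ℕ} (h : x ∈ Ew gs) : x ∈ gs.map It.w := by
  induction gs with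
  | nil => exact absurd h (Multiset.notMem_zero _)
  | cons it gs ih =>
    rw [Ew_cons, Multiset.mem_add] at h
    rw [List.map_cons, List.mem_cons]
    rcases h with h | h
    · left
      cases it with
      | pair w a b =>
        simp only [It.ws, Multiset.insert_eq_cons, Multiset.mem_cons, Multiset.mem_singleton,
          or_self] at h
        exact h
      | one w c => exact Multiset.mem_singleton.mp h
    · exact Or.inr (ih h)

theorem mem_Tr {gs : List It} {l : L} (h : l ∈ Tr gs) : ∃ p it q c r, gs = p ++ it :: q ∧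
    Rm it c r ∧ l = .big it.w c := by
  induction gs with
  | nil => exact absurd h (Multiset.notMem_zero _)
  | cons it gs ih =>
    rw [Tr_cons, Multiset.mem_add] at h
    rcases h with h | h
    · cases it with
      | pair w a b =>
        simp only [It.trees, Multiset.insert_eq_cons, Multiset.mem_cons,
          Multiset.mem_singleton] at h
        rcases h with h | h
        · exact ⟨[], _, gs, a, _, rfl, Rm.left w a b, h⟩
        · exact ⟨[], _, gs, b, _, rfl, Rm.right w a b, h⟩
      | one w c => exact ⟨[], _, gs, c, _, rfl, Rm.one w c, Multiset.mem_singleton.mp h⟩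
    · obtain ⟨p, it', q, c, r, e, h1, h2⟩ := ih h
      exact ⟨it :: p, it', q, c, r, by rw [e]; rfl, h1, h2⟩

/-- The topmost single tree. -/
theorem split_one (gs : List It) : (∀ it ∈ gs, it.IsPair) ∨
    ∃ p u c q, gs = p ++ .one u c :: q ∧ ∀ it ∈ p, it.IsPair := by
  induction gs with
  | nil => exact Or.inl (fun it h => absurd h List.not_mem_nil)
  | cons it gs ih =>
    cases it with
    | pair w a b =>
      rcases ih with ih | ⟨p, u, c, q, e, h⟩
      · left
        intro it h
        rcases List.mem_cons.mp h with h | h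
        · rw [h]; exact trivial
        · exact ih it h
      · right
        refine ⟨.pair w a b :: p, u, c, q, by rw [e]; rfl, fun it h' => ?_⟩
        rcases List.mem_cons.mp h' with h' | h'
        · rw [h']; exact trivial
        · exact h it h'
    | one w c => exact Or.inr ⟨[], w, c, gs, rfl, fun it h => absurd h List.not_mem_nil⟩

/-! ### Positions -/

theorem Pos_rm {it : It} {c : List ℕ} {r : List It} (h : Rm it c r) (p q : List It)
    (M : Multiset ℕ) (n : ℕ) :
    Pos (p ++ it :: q) M n = .big it.w c ::ₘ Pos (p ++ r ++ q) M n := by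
  unfold Pos
  rw [Tr_append, Tr_cons, h.trees, Tr_append, Tr_append, ← Multiset.cons_add]
  congr 1
  rw [Multiset.cons_add, Multiset.add_cons, add_assoc]

theorem Pos_sw (gs : List It) {M : Multiset ℕ} {x : ℕ} (hx : x ∈ M) (n : ℕ) :
    Pos gs M n = .sw x ::ₘ Pos gs (M.erase x) n := by
  unfold Pos
  conv_lhs => rw [← Multiset.cons_erase hx]
  rw [Multiset.map_cons, Multiset.cons_add, Multiset.add_cons]

theorem Pos_k2 (gs : List It) (M : Multiset ℕ) (n : ℕ) :
    Pos gs M (n + 1) = .k2 ::ₘ Pos gs M n := by
  unfold Pos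
  rw [Multiset.replicate_succ, Multiset.add_cons, Multiset.add_cons]

theorem Pos_add_k2 (gs : List It) (M : Multiset ℕ) (n m : ℕ) :
    Pos gs M n + (List.replicate m L.k2 : Multiset L) = Pos gs M (n + m) := by
  unfold Pos
  rw [add_assoc, add_assoc, Multiset.coe_replicate, ← Multiset.replicate_add]

theorem Pos_add_kids (gs : List It) (M : Multiset ℕ) (n : ℕ) (w : ℕ) (a : List ℕ) :
    Pos gs M n + (kids (.big w a) : Multiset L)
      = Pos gs (M + (a : Multiset ℕ)) (n + (w + 1 - a.length)) := by
  unfold Pos kids
  rw [← Multiset.coe_add, Multiset.coe_replicate, Multiset.map_add, Multiset.replicate_add,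
    Multiset.map_coe]
  abel

theorem card_Pos (gs : List It) (M : Multiset ℕ) (n : ℕ) :
    (Pos gs M n).card = (Tr gs).card + M.card + n := by
  unfold Pos
  rw [Multiset.card_add, Multiset.card_add, Multiset.card_map, Multiset.card_replicate]
  omega

theorem mem_Pos {gs : List It} {M : Multiset ℕ} {n : ℕ} {l : L} (h : l ∈ Pos gs M n) :
    (∃ p it q c r, gs = p ++ it :: q ∧ Rm it c r ∧ l = .big it.w c) ∨ (∃ x ∈ M, l = .sw x) ∨
      (n ≠ 0 ∧ l = .k2) := by
  unfold Pos at h
  rw [Multiset.mem_add, Multiset.mem_add, Multiset.mem_map, Multiset.mem_replicate] at h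
  rcases h with h | ⟨x, hx, rfl⟩ | h
  · exact Or.inl (mem_Tr h)
  · exact Or.inr (Or.inl ⟨x, hx, rfl⟩)
  · exact Or.inr (Or.inr h)

theorem map_wt_Tr (gs : List It) : (Tr gs).map wt = Ew gs := by
  induction gs with
  | nil => rfl
  | cons it gs ih =>
    rw [Tr_cons, Ew_cons, Multiset.map_add, ih]
    cases it <;> rfl

theorem map_wt_Pos (gs : List It) (M : Multiset ℕ) (n : ℕ) :
    (Pos gs M n).map wt = Ew gs + (M + Multiset.replicate n 0) := by
  unfold Pos
  rw [Multiset.map_add, Multiset.map_add, map_wt_Tr, Multiset.map_map, Multiset.map_replicate]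
  congr 2
  exact Multiset.map_id' M

theorem Ew_le (gs : List It) (M : Multiset ℕ) (n : ℕ) : Ew gs ≤ (Pos gs M n).map wt := by
  rw [map_wt_Pos]
  exact Multiset.le_add_right _ _

/-! ### Values -/

theorem Val_le (B : ℕ) (gs : List It) : ∀ (m : Bool) (M : Multiset ℕ),
    Val B m gs M ≤ tot gs + M.sum := by
  induction gs with
  | nil =>
    intro m M
    cases m
    · exact (dn_le_up B M).trans ((up_le_sum B M).trans (Nat.le_add_left _ _))
    · exact (up_le_sum B M).trans (Nat.le_add_left _ _)
  | cons it gs ih =>
    intro m M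
    rw [tot_cons]
    have hs : ∀ a : List ℕ, (M + (a : Multiset ℕ)).sum = M.sum + a.sum := fun a => by
      rw [Multiset.sum_add, Multiset.sum_coe]
    cases it with
    | pair w a b =>
      have h1 := fun m => ih m (M + (a : Multiset ℕ))
      have h2 := fun m => ih m (M + (b : Multiset ℕ))
      rw [hs] at h1 h2
      have e : (It.pair w a b).tot = a.sum + b.sum := rfl
      cases m
      · have h3 := h1 false
        refine (min_le_left _ _).trans ?_
        omega
      · have h3 := h1 true
        have h4 := h2 true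
        refine max_le ?_ ?_ <;> omega
    | one w c =>
      have h1 := fun m => ih m (M + (c : Multiset ℕ))
      rw [hs] at h1
      have e : (It.one w c).tot = c.sum := rfl
      cases m
      · have h3 := ih true M
        show Val B true gs M ≤ _
        omega
      · have h3 := h1 false
        show Val B false gs _ ≤ _
        omega

theorem Val_swap (M : Multiset ℕ) (a c : List ℕ) :
    M + (a : Multiset ℕ) + (c : Multiset ℕ) = M + (c : Multiset ℕ) + (a : Multiset ℕ) := by
  abel

/-- Taking a tree of a pair below pairs. -/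
theorem Val_S_pair {B : ℕ} {p : List It} (hp : ∀ it ∈ p, it.IsPair) (q : List It) (w : ℕ)
    (a b : List ℕ) : ∀ M : Multiset ℕ,
    max (Val B true (p ++ q) (M + (a : Multiset ℕ))) (Val B true (p ++ q) (M + (b : Multiset ℕ)))
      ≤ Val B true (p ++ .pair w a b :: q) M := by
  induction p with
  | nil => intro M; exact le_rfl
  | cons it p ih =>
    intro M
    have ih := ih (fun i hi => hp i (List.mem_cons_of_mem _ hi))
    cases it with
    | one w' c => exact absurd (hp _ List.mem_cons_self) (fun h => h)
    | pair w' c d =>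
      rw [List.cons_append, List.cons_append]
      have h1 := ih (M + (c : Multiset ℕ))
      have h2 := ih (M + (d : Multiset ℕ))
      rw [max_le_iff] at h1 h2
      rw [Val_swap M c a, Val_swap M c b] at h1
      rw [Val_swap M d a, Val_swap M d b] at h2
      refine max_le (max_le ?_ ?_) (max_le ?_ ?_)
      · exact h1.1.trans (le_max_left _ _)
      · exact h2.1.trans (le_max_right _ _)
      · exact h1.2.trans (le_max_left _ _)
      · exact h2.2.trans (le_max_right _ _)

theorem Val_D_pair {B : ℕ} {p : List It} (hp : ∀ it ∈ p, it.IsPair) (q : List It) (w : ℕ)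
    (a b : List ℕ) : ∀ M : Multiset ℕ,
    Val B false (p ++ .pair w a b :: q) M ≤
    min (Val B false (p ++ q) (M + (a : Multiset ℕ))) (Val B false (p ++ q) (M + (b : Multiset ℕ)))
       := by
  induction p with
  | nil => intro M; exact le_rfl
  | cons it p ih =>
    intro M
    have ih := ih (fun i hi => hp i (List.mem_cons_of_mem _ hi))
    cases it with
    | one w' c => exact absurd (hp _ List.mem_cons_self) (fun h => h)
    | pair w' c d =>
      rw [List.cons_append, List.cons_append]
      have h1 := ih (M + (c : Multiset ℕ))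
      have h2 := ih (M + (d : Multiset ℕ))
      rw [le_min_iff] at h1 h2
      rw [Val_swap M c a, Val_swap M c b] at h1
      rw [Val_swap M d a, Val_swap M d b] at h2
      refine le_min (le_min ?_ ?_) (le_min ?_ ?_)
      · exact (min_le_left _ _).trans h1.1
      · exact (min_le_right _ _).trans h2.1
      · exact (min_le_left _ _).trans h1.2
      · exact (min_le_right _ _).trans h2.2

/-- Taking a single tree below pairs. -/
theorem Val_S_one {B : ℕ} {p : List It} (hp : ∀ it ∈ p, it.IsPair) (q : List It) (w : ℕ)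
    (a : List ℕ) : ∀ M : Multiset ℕ,
    Val B false (p ++ q) (M + (a : Multiset ℕ)) ≤ Val B true (p ++ .one w a :: q) M := by
  induction p with
  | nil => intro M; exact le_rfl
  | cons it p ih =>
    intro M
    have ih := ih (fun i hi => hp i (List.mem_cons_of_mem _ hi))
    cases it with
    | one w' c => exact absurd (hp _ List.mem_cons_self) (fun h => h)
    | pair w' c d =>
      rw [List.cons_append, List.cons_append]
      have h1 := ih (M + (c : Multiset ℕ))
      rw [Val_swap M c a] at h1
      exact (min_le_left _ _).trans (h1.trans (le_max_left _ _))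

theorem Val_D_one {B : ℕ} {p : List It} (hp : ∀ it ∈ p, it.IsPair) (q : List It) (w : ℕ)
    (a : List ℕ) : ∀ M : Multiset ℕ,
    Val B false (p ++ .one w a :: q) M ≤ Val B true (p ++ q) M := by
  induction p with
  | nil => intro M; exact le_rfl
  | cons it p ih =>
    intro M
    have ih := ih (fun i hi => hp i (List.mem_cons_of_mem _ hi))
    cases it with
    | one w' c => exact absurd (hp _ List.mem_cons_self) (fun h => h)
    | pair w' c d =>
      rw [List.cons_append, List.cons_append]
      exact (min_le_left _ _).trans ((ih (M + (c : Multiset ℕ))).trans (le_max_left _ _))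

/-- Taking a switch when there are only pairs. -/
theorem Val_S_sw {B : ℕ} {p : List It} (hp : ∀ it ∈ p, it.IsPair) {x : ℕ} (hxB : x ≤ B) :
    ∀ M : Multiset ℕ, x ∈ M → x + Val B false p (M.erase x) ≤ Val B true p M := by
  induction p with
  | nil =>
    intro M hx
    have h1 := take_le B x (M.erase x)
    rw [Multiset.cons_erase hx, min_eq_left hxB] at h1
    exact h1
  | cons it p ih =>
    intro M hx
    have ih := ih (fun i hi => hp i (List.mem_cons_of_mem _ hi))
    cases it with
    | one w' c => exact absurd (hp _ List.mem_cons_self) (fun h => h)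
    | pair w' c d =>
      have h1 := ih (M + (c : Multiset ℕ)) (Multiset.mem_add.mpr (Or.inl hx))
      rw [Multiset.erase_add_left_pos _ hx] at h1
      refine le_trans (Nat.add_le_add_left (min_le_left _ _) x) (h1.trans (le_max_left _ _))

theorem Val_D_sw {B : ℕ} {p : List It} (hp : ∀ it ∈ p, it.IsPair) {x : ℕ} :
    ∀ M : Multiset ℕ, x ∈ M → Val B false p M ≤ Val B true p (M.erase x) := by
  induction p with
  | nil =>
    intro M hx
    have h1 := dn_cons_le B x (M.erase x)
    rw [Multiset.cons_erase hx] at h1
    exact h1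
  | cons it p ih =>
    intro M hx
    have ih := ih (fun i hi => hp i (List.mem_cons_of_mem _ hi))
    cases it with
    | one w' c => exact absurd (hp _ List.mem_cons_self) (fun h => h)
    | pair w' c d =>
      have h1 := ih (M + (c : Multiset ℕ)) (Multiset.mem_add.mpr (Or.inl hx))
      rw [Multiset.erase_add_left_pos _ hx] at h1
      exact (min_le_left _ _).trans (h1.trans (le_max_left _ _))

/-- It does not hurt Staller to be on move, when there are only pairs. -/
theorem Val_D_le {B : ℕ} {p : List It} (hp : ∀ it ∈ p, it.IsPair) :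
    ∀ M : Multiset ℕ, Val B false p M ≤ Val B true p M := by
  induction p with
  | nil => intro M; exact dn_le_up B M
  | cons it p ih =>
    intro M
    have ih := ih (fun i hi => hp i (List.mem_cons_of_mem _ hi))
    cases it with
    | one w' c => exact absurd (hp _ List.mem_cons_self) (fun h => h)
    | pair w' c d => exact (min_le_left _ _).trans ((ih _).trans (le_max_left _ _))

/-! ### Counting -/

theorem up_two {B w : ℕ} (hw : w ≤ B) (E : Multiset ℕ) :
    up B (w ::ₘ w ::ₘ E) = w + up B E := by
  conv_rhs => rw [← min_eq_left hw]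
  rw [← sum_ind, up, up, ← Finset.sum_add_distrib]
  refine Finset.sum_congr rfl fun t _ => ?_
  rw [cnt_cons, cnt_cons]
  split_ifs <;> omega

theorem dn_two {B w : ℕ} (hw : w ≤ B) (E : Multiset ℕ) :
    dn B (w ::ₘ w ::ₘ E) = w + dn B E := by
  conv_rhs => rw [← min_eq_left hw]
  rw [← sum_ind, dn, dn, ← Finset.sum_add_distrib]
  refine Finset.sum_congr rfl fun t _ => ?_
  rw [cnt_cons, cnt_cons]
  split_ifs <;> omega

theorem cnt_pairs {p : List It} (hp : ∀ it ∈ p, it.IsPair) (t : ℕ) : cnt (Ew p) t % 2 = 0 := by
  induction p with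
  | nil => rfl
  | cons it p ih =>
    have ih := ih (fun i hi => hp i (List.mem_cons_of_mem _ hi))
    cases it with
    | one w' c => exact absurd (hp _ List.mem_cons_self) (fun h => h)
    | pair w' c d =>
      have e : (It.pair w' c d).ws + Ew p = w' ::ₘ w' ::ₘ Ew p := by
        show ({w', w'} : Multiset ℕ) + _ = _
        rw [Multiset.insert_eq_cons, Multiset.cons_add, Multiset.singleton_add]
      rw [Ew_cons, e, cnt_cons, cnt_cons]
      split_ifs <;> omega

/-- No single tree above. -/
theorem up_even {B w : ℕ} (hw : w ≤ B) {F : Multiset ℕ} (hF : ∀ t, w ≤ t → cnt F t % 2 = 0) :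
    up B (w ::ₘ F) = w + dn B F := by
  conv_rhs => rw [← min_eq_left hw]
  rw [← sum_ind, up, dn, ← Finset.sum_add_distrib]
  refine Finset.sum_congr rfl fun t _ => ?_
  rw [cnt_cons]
  split_ifs with h
  · omega
  · have := hF t (not_lt.mp h)
    omega

theorem dn_even {B w : ℕ} {F : Multiset ℕ} (hF : ∀ t, w ≤ t → cnt F t % 2 = 0) :
    dn B (w ::ₘ F) = up B F := by
  rw [up, dn]
  refine Finset.sum_congr rfl fun t _ => ?_
  rw [cnt_cons]
  split_ifs with h
  · rfl
  · have := hF t (not_lt.mp h)
    omega

theorem sum_Ico_ind (B u K : ℕ) (hu : u ≤ B) (hK : K ≤ u) :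
    ∑ t ∈ range B, (if u - K ≤ t ∧ t < u then 1 else 0) = K := by
  rw [Finset.sum_ite, Finset.sum_const_zero, add_zero, Finset.sum_const, smul_eq_mul, mul_one]
  have : (range B).filter (fun t => u - K ≤ t ∧ t < u) = Finset.Ico (u - K) u := by
    ext t
    simp only [Finset.mem_filter, Finset.mem_range, Finset.mem_Ico]
    omega
  rw [this, Nat.card_Ico]
  omega

/-- A single tree above. -/
theorem up_odd {B w u K : ℕ} (hu : u ≤ B) (hK : K ≤ u) (hwu : w ≤ u - K) {F : Multiset ℕ}
    (hF : ∀ t, u - K ≤ t → t < u → cnt F t % 2 = 1) :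
    w + dn B F + K ≤ up B (w ::ₘ F) := by
  have hw : w ≤ B := by omega
  conv_lhs => rw [← min_eq_left hw, ← sum_Ico_ind B u K hu hK]
  rw [← sum_ind, up, dn, ← Finset.sum_add_distrib, ← Finset.sum_add_distrib]
  refine Finset.sum_le_sum fun t _ => ?_
  rw [cnt_cons]
  by_cases h1 : u - K ≤ t ∧ t < u
  · have := hF t h1.1 h1.2
    rw [if_pos h1, if_neg (by omega)]
    omega
  · rw [if_neg h1]
    split_ifs <;> omega

theorem dn_odd {B w u K : ℕ} (hu : u ≤ B) (hK : K ≤ u) (hwu : w ≤ u - K) {F : Multiset ℕ}
    (hF : ∀ t, u - K ≤ t → t < u → cnt F t % 2 = 1) :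
    dn B (w ::ₘ F) + K ≤ up B F := by
  conv_lhs => rw [← sum_Ico_ind B u K hu hK]
  rw [up, dn, ← Finset.sum_add_distrib]
  refine Finset.sum_le_sum fun t _ => ?_
  rw [cnt_cons]
  by_cases h1 : u - K ≤ t ∧ t < u
  · have := hF t h1.1 h1.2
    rw [if_pos h1, if_neg (by omega)]
    omega
  · rw [if_neg h1]
    split_ifs <;> omega

theorem cnt_zero_cons (F : Multiset ℕ) (t : ℕ) : cnt (0 ::ₘ F) t = cnt F t := by
  rw [cnt_cons, if_neg (Nat.not_lt_zero t), add_zero]

theorem up_zero_cons (B : ℕ) (F : Multiset ℕ) : up B (0 ::ₘ F) = up B F := by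
  unfold up
  exact Finset.sum_congr rfl fun t _ => by rw [cnt_zero_cons]

theorem dn_zero_cons (B : ℕ) (F : Multiset ℕ) : dn B (0 ::ₘ F) = dn B F := by
  unfold dn
  exact Finset.sum_congr rfl fun t _ => by rw [cnt_zero_cons]

/-- The topmost weight is still there. -/
theorem up_top {B w K : ℕ} (hw : w ≤ B) (hK : K ≤ w) {F : Multiset ℕ}
    (hF : ∀ x ∈ F, x ≤ w - K) (j : ℕ) : up B F + K ≤ up B (w ::ₘ F.erase j) := by
  conv_lhs => rw [← sum_Ico_ind B w K hw hK]
  rw [up, up, ← Finset.sum_add_distrib]
  refine Finset.sum_le_sum fun t _ => ?_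
  rw [cnt_cons]
  have h2 : cnt F t ≤ cnt (F.erase j) t + 1 := by
    by_cases hj : j ∈ F
    · conv_lhs => rw [← Multiset.cons_erase hj]
      rw [cnt_cons]
      split_ifs <;> omega
    · rw [Multiset.erase_of_notMem hj]
      omega
  by_cases h1 : w - K ≤ t ∧ t < w
  · have h3 : cnt F t = 0 := cnt_eq_zero fun x hx => (hF x hx).trans h1.1
    rw [if_pos h1, if_pos h1.2]
    omega
  · rw [if_neg h1]
    by_cases h4 : t < w
    · rw [if_pos h4]
      omega
    · have h3 : cnt F t = 0 := cnt_eq_zero fun x hx => (hF x hx).trans (by omega)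
      rw [h3]
      omega

/-! ### The invariant -/

/-- The conditions on the weights and the contents. -/
structure Inv (B K : ℕ) (gs : List It) (M : Multiset ℕ) : Prop where
  sorted : (gs.map It.w).Pairwise (fun x y => y + K ≤ x)
  big : ∀ x ∈ gs.map It.w, K ≤ x ∧ x ≤ B
  len : ∀ it ∈ gs, ∀ c r, Rm it c r → c.length ≤ it.w + 1
  small : tot gs + M.sum ≤ K
  KB : K ≤ B

theorem Inv.erase {B K : ℕ} {gs : List It} {M : Multiset ℕ} (h : Inv B K gs M) (x : ℕ) :
    Inv B K gs (M.erase x) := by
  refine ⟨h.sorted, h.big, h.len, le_trans ?_ h.small, h.KB⟩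
  obtain ⟨t, ht⟩ := Multiset.le_iff_exists_add.mp (Multiset.erase_le x M)
  conv_rhs => rw [ht]
  rw [Multiset.sum_add]
  omega

theorem Inv.rm {B K : ℕ} {p q : List It} {it : It} {c : List ℕ} {r : List It} {M : Multiset ℕ}
    (h : Inv B K (p ++ it :: q) M) (hr : Rm it c r) :
    Inv B K (p ++ r ++ q) (M + (c : Multiset ℕ)) := by
  refine ⟨h.sorted.sublist (hr.sub p q), fun x hx => h.big x ((hr.sub p q).subset hx),
    fun i hi c' r' hr' => ?_, ?_, h.KB⟩
  · rw [List.mem_append, List.mem_append] at hi
    rcases hi with (hi | hi) | hi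
    · exact h.len i (List.mem_append_left _ hi) c' r' hr'
    · have hit := h.len it (List.mem_append_right _ List.mem_cons_self)
      cases hr with
      | left w a b =>
        rw [List.mem_singleton] at hi
        subst hi
        cases hr' with
        | one w c => exact hit _ _ (Rm.right _ _ _)
      | right w a b =>
        rw [List.mem_singleton] at hi
        subst hi
        cases hr' with
        | one w c => exact hit _ _ (Rm.left _ _ _)
      | one w c => exact absurd hi List.not_mem_nil
    · exact h.len i (List.mem_append_right _ (List.mem_cons_of_mem _ hi)) c' r' hr'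
  · have h1 := h.small
    have h2 := hr.tot_eq
    rw [tot_append, tot_cons] at h1
    rw [tot_append, tot_append, Multiset.sum_add, Multiset.sum_coe]
    omega

theorem Inv.drop {B K : ℕ} {p q : List It} {it : It} {c : List ℕ} {r : List It} {M : Multiset ℕ}
    (h : Inv B K (p ++ it :: q) M) (hr : Rm it c r) : Inv B K (p ++ r ++ q) M := by
  have h1 := h.rm hr
  refine ⟨h1.sorted, h1.big, h1.len, le_trans ?_ h1.small, h1.KB⟩
  rw [Multiset.sum_add]
  omega

theorem Inv.memB {B K : ℕ} {gs : List It} {M : Multiset ℕ} (h : Inv B K gs M) {x : ℕ}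
    (hx : x ∈ M) : x ≤ K := by
  have h1 := h.small
  have h2 := Multiset.single_le_sum (fun y _ => Nat.zero_le y) x hx
  omega

/-- The weights below. -/
theorem Inv.below {B K : ℕ} {p q : List It} {it : It} {M : Multiset ℕ}
    (h : Inv B K (p ++ it :: q) M) : ∀ x ∈ Ew q, x + K ≤ it.w := by
  intro x hx
  have h1 := h.sorted
  rw [List.map_append, List.pairwise_append] at h1
  have h2 := h1.2.1
  rw [List.map_cons, List.pairwise_cons] at h2
  exact h2.1 x (mem_Ew hx)

theorem Inv.wB {B K : ℕ} {p q : List It} {it : It} {M : Multiset ℕ}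
    (h : Inv B K (p ++ it :: q) M) : K ≤ it.w ∧ it.w ≤ B :=
  h.big _ (List.mem_map_of_mem (List.mem_append_right _ List.mem_cons_self))

theorem Inv.even {B K : ℕ} {p q : List It} {it : It} {c : List ℕ} {r : List It}
    {M : Multiset ℕ} (h : Inv B K (p ++ it :: q) M) (hr : Rm it c r)
    (hp : ∀ it ∈ p, it.IsPair) : ∀ t, it.w ≤ t → cnt (Ew (p ++ r ++ q)) t % 2 = 0 := by
  intro t ht
  rw [Ew_append, Ew_append, cnt_add, cnt_add]
  have h1 := cnt_pairs hp t
  have h2 : cnt (Ew q) t = 0 := cnt_eq_zero fun x hx => by
    have := h.below x hx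
    omega
  have h3 : cnt (Ew r) t = 0 := by
    refine cnt_eq_zero fun x hx => ?_
    cases hr with
    | left w a b => rw [show x = w from Multiset.mem_singleton.mp hx]; exact ht
    | right w a b => rw [show x = w from Multiset.mem_singleton.mp hx]; exact ht
    | one w c => exact absurd hx (Multiset.notMem_zero _)
  omega

/-- Some single tree. -/
theorem Inv.odd {B K : ℕ} {gs : List It} {M : Multiset ℕ} (h : Inv B K gs M) {p q : List It}
    {u : ℕ} {c : List ℕ} (e : gs = p ++ .one u c :: q) (hp : ∀ it ∈ p, it.IsPair) :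
    K ≤ u ∧ u ≤ B ∧ ∀ t, u - K ≤ t → t < u → cnt (Ew gs) t % 2 = 1 := by
  subst e
  have h0 : K ≤ u ∧ u ≤ B := h.wB
  refine ⟨h0.1, h0.2, fun t ht ht' => ?_⟩
  rw [Ew_append, Ew_cons, cnt_add, cnt_add]
  have h1 := cnt_pairs hp t
  have h2 : cnt (Ew q) t = 0 := cnt_eq_zero fun x hx => by
    have h3 : x + K ≤ u := h.below x hx
    omega
  have h3 : cnt (It.one u c).ws t = 1 := by
    show cnt (u ::ₘ 0) t = 1
    rw [cnt_cons, cnt_zero, if_pos ht']
  omega

/-- Some single tree above the tree that is removed. -/
theorem Inv.odd_above {B K : ℕ} {p q : List It} {it : It} {c : List ℕ} {r : List It}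
    {M : Multiset ℕ} (h : Inv B K (p ++ it :: q) M) (hr : Rm it c r) {p1 p2 : List It}
    {u : ℕ} {d : List ℕ} (e : p = p1 ++ .one u d :: p2) (hp : ∀ it ∈ p1, it.IsPair) :
    K ≤ u ∧ u ≤ B ∧ it.w ≤ u - K ∧
      ∀ t, u - K ≤ t → t < u → cnt (Ew (p ++ r ++ q)) t % 2 = 1 := by
  have h1 := (h.drop hr).odd (p := p1) (q := p2 ++ r ++ q) (u := u) (c := d)
    (by rw [e]; simp) hp
  refine ⟨h1.1, h1.2.1, ?_, h1.2.2⟩
  have h2 := h.sorted
  rw [e, List.append_assoc, List.map_append, List.pairwise_append] at h2
  have h3 := h2.2.1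
  rw [List.cons_append, List.map_cons, List.pairwise_cons] at h3
  have h4 : it.w + K ≤ u := h3.1 it.w
    (List.mem_map_of_mem (List.mem_append_right _ List.mem_cons_self))
  omega

end Pool.Agent.Helper7.CogP
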